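import Mathlib

/-!
# Real-variable part: from the key inequality to the constant `e / (e - 1)`
-/

set_option autoImplicit false
set_option linter.all false

namespace Pool.Agent.Helper430_GC

open Filter Topology

/-- elementary inequality -/
lemma pow_gap (m : ℕ) {y : ℝ} (h0 : 0 ≤ y) (h1 : y ≤ 1) :
    ((m : ℝ) + 1) * (1 - y ^ (m + 2)) ≤ ((m : ℝ) + 2) * (1 - y ^ (m + 1)) := by
  have key : ∀ k : ℕ, (k : ℝ) * (1 - y) * y ^ k ≤ 1 - y ^ k := by
    intro k
    induction k with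
    | zero => simp
    | succ k ih =>
      have h2 : 0 ≤ y ^ k := pow_nonneg h0 k
      have h3 : y ^ (k + 1) = y ^ k * y := pow_succ y k
      have h4 : 0 ≤ (k : ℝ) := Nat.cast_nonneg k
      have h5 : y ^ k ≤ 1 := pow_le_one₀ h0 h1
      push_cast
      rw [h3]
      have h6 : ((k : ℝ) + 1) * (1 - y) * (y ^ k * y) = ((k : ℝ) * (1 - y) * y ^ k) * y +
          (1 - y) * (y ^ k * y) := by ring
      rw [h6]
      have h7 : ((k : ℝ) * (1 - y) * y ^ k) * y ≤ (1 - y ^ k) * y :=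
        mul_le_mul_of_nonneg_right ih h0
      have h8 : (1 - y) * (y ^ k * y) ≤ (1 - y) * 1 := by
        refine mul_le_mul_of_nonneg_left ?_ (by linarith)
        nlinarith
      nlinarith
  have h := key (m + 1)
  have h2 : y ^ (m + 2) = y ^ (m + 1) * y := pow_succ y (m + 1)
  rw [h2]
  push_cast at h
  nlinarith

section

variable {θ : ℝ → ℝ} {pc : ℝ}

/-- key inequality at the critical point -/
lemma key_crit (hpc0 : 0 < pc) (hmono : ∀ q p, 0 ≤ q → q ≤ p → p ≤ 1 → θ q ≤ θ p)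
    (hpos : ∀ p, pc < p → p ≤ 1 → 0 < θ p)
    (hkey : ∀ p α : ℝ, 0 < p → p < 1 → 0 < α → α ≤ 1 → ∀ n : ℕ, 0 < θ (p * α ^ n) →
      (p - p * α ^ n) / (p * α ^ n * (1 - p)) * (1 - θ p) ≤ θ p - θ p * (θ (p * α) / θ p) ^ n)
    {p y : ℝ} (hp : pc < p) (hp1 : p < 1) (hy0 : 0 < y) (hy1 : y < 1) (n : ℕ) (hn : n ≠ 0)
    (hy : p * y ^ n = pc) (hnn : 0 ≤ θ (p * y)) :
    (p - pc) / (pc * (1 - p)) * (1 - θ p) ≤ θ p - θ p * (θ (p * y) / θ p) ^ n := by
  have hp0 : 0 < p := hpc0.trans hp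
  have hθ : 0 < θ p := hpos p hp hp1.le
  have hstep : ∀ᶠ α in 𝓝[>] y, (p - p * α ^ n) / (p * α ^ n * (1 - p)) * (1 - θ p) ≤
      θ p - θ p * (θ (p * y) / θ p) ^ n := by
    have h1 : ∀ᶠ α in 𝓝[>] y, α < 1 := by
      have : Set.Iio (1 : ℝ) ∈ 𝓝 y := Iio_mem_nhds hy1
      exact mem_nhdsWithin_of_mem_nhds this
    have h2 : ∀ᶠ α in 𝓝[>] y, y < α := self_mem_nhdsWithin
    filter_upwards [h1, h2] with α hα1 hα2
    have hα0 : 0 < α := hy0.trans hα2
    have hq : pc < p * α ^ n := by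
      rw [← hy]
      exact mul_lt_mul_of_pos_left (pow_lt_pow_left₀ hα2 hy0.le hn) hp0
    have hq1 : p * α ^ n ≤ 1 := by
      have := pow_le_one₀ hα0.le hα1.le (n := n)
      nlinarith
    refine (hkey p α hp0 hp1 hα0 hα1.le n (hpos _ hq hq1)).trans ?_
    have h3 : θ (p * y) ≤ θ (p * α) := by
      refine hmono _ _ (by positivity) (mul_le_mul_of_nonneg_left hα2.le hp0.le) ?_
      nlinarith
    have h4 : (θ (p * y) / θ p) ^ n ≤ (θ (p * α) / θ p) ^ n :=
      pow_le_pow_left₀ (div_nonneg hnn hθ.le) (div_le_div_of_nonneg_right h3 hθ.le) n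
    have h5 := mul_le_mul_of_nonneg_left h4 hθ.le
    linarith
  have hcont : Tendsto (fun α : ℝ => (p - p * α ^ n) / (p * α ^ n * (1 - p)) * (1 - θ p))
      (𝓝[>] y) (𝓝 ((p - p * y ^ n) / (p * y ^ n * (1 - p)) * (1 - θ p))) := by
    refine Tendsto.mono_left ?_ nhdsWithin_le_nhds
    refine Tendsto.mul_const _ ?_
    refine Tendsto.div ?_ ?_ ?_
    · exact (((continuous_pow n).tendsto y).const_mul p).const_sub p
    · exact ((((continuous_pow n).tendsto y).const_mul p).mul_const (1 - p))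
    · have : 0 < 1 - p := by linarith
      positivity
  rw [hy] at hcont
  exact le_of_tendsto hcont hstep

/-- From the key inequality to the constant `e / (e - 1)`. -/
theorem const_e (hpc0 : 0 < pc) (hmono : ∀ q p, 0 ≤ q → q ≤ p → p ≤ 1 → θ q ≤ θ p)
    (hnn : ∀ p, 0 ≤ p → p ≤ 1 → 0 ≤ θ p) (hle : ∀ p, 0 ≤ p → p ≤ 1 → θ p ≤ 1)
    (hpos : ∀ p, pc < p → p ≤ 1 → 0 < θ p)
    (hkey : ∀ p α : ℝ, 0 < p → p < 1 → 0 < α → α ≤ 1 → ∀ n : ℕ, 0 < θ (p * α ^ n) →
      (p - p * α ^ n) / (p * α ^ n * (1 - p)) * (1 - θ p) ≤ θ p - θ p * (θ (p * α) / θ p) ^ n)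
    {p : ℝ} (hp : pc < p) (hp1 : p < 1) :
    Real.exp 1 * ((1 - θ p) * (p - pc)) ≤ (Real.exp 1 - 1) * (θ p * (pc * (1 - p))) := by
  have hp0 : 0 < p := hpc0.trans hp
  rcases eq_or_lt_of_le (hle p hp0.le hp1.le) with h1 | hθ1
  · rw [h1]
    have h2 : 1 < Real.exp 1 := by
      have := Real.add_one_lt_exp (x := 1) (by norm_num)
      linarith
    have h3 : 0 ≤ (Real.exp 1 - 1) * (1 * (pc * (1 - p))) := by
      have : 0 < 1 - p := by linarith
      have : 0 < Real.exp 1 - 1 := by linarith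
      positivity
    simpa using h3
  -- the function `K`
  set K : ℝ → ℝ := fun x => θ x * (pc * (1 - x)) / ((1 - θ x) * (x - pc)) with hK
  have hI : ∀ x, pc < x → x ≤ p → 0 < x ∧ x < 1 ∧ 0 < θ x ∧ θ x < 1 := by
    intro x h1 h2
    have h3 : x < 1 := lt_of_le_of_lt h2 hp1
    exact ⟨hpc0.trans h1, h3, hpos x h1 h3.le, lt_of_le_of_lt (hmono x p (hpc0.trans h1).le h2 hp1.le) hθ1⟩
  -- (c)
  have hG : ∀ x r, pc < r → r ≤ x → x ≤ p →
      (1 - θ x) * (x * (1 - r)) ≤ (1 - θ r) * (r * (1 - x)) := by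
    intro x r h1 h2 h3
    obtain ⟨hx0, hx1, hx2, hx3⟩ := hI x (h1.trans_le h2) h3
    obtain ⟨hr0, hr1, hr2, hr3⟩ := hI r h1 (h2.trans h3)
    have hkk := hkey x (r / x) hx0 hx1 (div_pos hr0 hx0) ((div_le_one hx0).2 h2) 1
    rw [pow_one, mul_div_cancel₀ _ hx0.ne', pow_one, mul_div_cancel₀ _ hx2.ne'] at hkk
    have h4 := hkk hr2
    have h5 : 0 < 1 - x := by linarith
    rw [div_mul_eq_mul_div, div_le_iff₀ (by positivity)] at h4
    nlinarith
  have hone : ∀ x, pc < x → x ≤ p → 1 ≤ K x := by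
    intro x h1 h2
    obtain ⟨hx0, hx1, hx2, hx3⟩ := hI x h1 h2
    have h5 : 0 < 1 - x := by linarith
    have h6 : 0 < x - pc := by linarith
    have h7 : 0 < 1 - θ x := by linarith
    have hkc := key_crit hpc0 hmono hpos hkey h1 hx1 (y := pc / x) (div_pos hpc0 hx0)
      ((div_lt_one hx0).2 h1) 1 one_ne_zero (by rw [pow_one]; field_simp) (by
        rw [mul_div_cancel₀ _ hx0.ne']; exact hnn _ hpc0.le (h1.le.trans hx1.le))
    rw [pow_one, mul_div_cancel₀ _ hx0.ne', mul_div_cancel₀ _ hx2.ne'] at hkc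
    have h8 := hnn pc hpc0.le (h1.le.trans hx1.le)
    rw [div_mul_eq_mul_div, div_le_iff₀ (by positivity)] at hkc
    simp only [hK]
    rw [le_div_iff₀ (by positivity)]
    nlinarith [mul_nonneg h8 (mul_pos hpc0 h5).le]
  have hbdd : BddBelow (K '' Set.Ioc pc p) := ⟨1, by
    rintro _ ⟨x, hx, rfl⟩; exact hone x hx.1 hx.2⟩
  set Ks := sInf (K '' Set.Ioc pc p) with hKs
  have hne : (K '' Set.Ioc pc p).Nonempty := ⟨K p, p, ⟨hp, le_rfl⟩, rfl⟩
  have hKs1 : 1 ≤ Ks := le_csInf hne (by rintro _ ⟨x, hx, rfl⟩; exact hone x hx.1 hx.2)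
  have hKsle : ∀ x, pc < x → x ≤ p → Ks ≤ K x := fun x h1 h2 => csInf_le hbdd ⟨x, ⟨h1, h2⟩, rfl⟩
  -- (d)
  have hd : ∀ (m : ℕ) x, pc < x → x ≤ p →
      (Ks * (((m : ℝ) + 1) / ((m : ℝ) + 2))) ^ (m + 2) ≤ K x ^ (m + 1) * (K x - 1) := by
    intro m x h1 h2
    obtain ⟨hx0, hx1, hx2, hx3⟩ := hI x h1 h2
    have hpx : 0 < pc / x := div_pos hpc0 hx0
    have hpx1 : pc / x < 1 := (div_lt_one hx0).2 h1
    set y := (pc / x) ^ ((1 : ℝ) / ((m : ℝ) + 2)) with hy
    have hm2 : (0 : ℝ) < (m : ℝ) + 2 := by positivity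
    have hm1 : (0 : ℝ) < (m : ℝ) + 1 := by positivity
    have hy0 : 0 < y := Real.rpow_pos_of_pos hpx _
    have hy1 : y < 1 := Real.rpow_lt_one hpx.le hpx1 (by positivity)
    have hyn : y ^ (m + 2) = pc / x := by
      rw [hy, ← Real.rpow_natCast, ← Real.rpow_mul hpx.le]
      push_cast
      rw [one_div, inv_mul_cancel₀ hm2.ne', Real.rpow_one]
    have hxy : x * y ^ (m + 2) = pc := by rw [hyn]; field_simp
    set r := x * y with hr
    have hr0 : 0 < r := mul_pos hx0 hy0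
    have hrx : r ≤ x := by rw [hr]; nlinarith
    have hry : r * y ^ (m + 1) = pc := by rw [hr, mul_assoc, ← pow_succ', hxy]
    have hym1 : y ^ (m + 1) < 1 := pow_lt_one₀ hy0.le hy1 (by omega)
    have hpcr : pc < r := by rw [← hry]; nlinarith
    obtain ⟨_, hr1, hr2, hr3⟩ := hI r hpcr (hrx.trans h2)
    have hkc := key_crit hpc0 hmono hpos hkey h1 hx1 hy0 hy1 (m + 2) (by omega) hxy
      (by rw [← hr]; exact hr2.le)
    rw [← hr] at hkc
    have h5 : 0 < 1 - x := by linarith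
    have h6 : 0 < x - pc := by linarith
    have h7 : 0 < 1 - θ x := by linarith
    have h5r : 0 < 1 - r := by linarith
    have h6r : 0 < r - pc := by linarith
    have h7r : 0 < 1 - θ r := by linarith
    have hKx : 0 < K x := by simp only [hK]; positivity
    have hKr : 0 < K r := by simp only [hK]; positivity
    -- the power
    have e1 : (θ r / θ x) ^ (m + 2) ≤ 1 - 1 / K x := by
      have h8 : (x - pc) / (pc * (1 - x)) * (1 - θ x) = θ x * (1 / K x) := by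
        simp only [hK]; field_simp
      rw [h8] at hkc
      have h9 : θ x * (θ r / θ x) ^ (m + 2) ≤ θ x * (1 - 1 / K x) := by linarith
      exact le_of_mul_le_mul_left h9 hx2
    -- the ratio
    have e2 : K r * (((m : ℝ) + 1) / ((m : ℝ) + 2)) ≤ K x * (θ r / θ x) := by
      have hg := hG x r hpcr hrx h2
      -- (m+1) (x - pc) r ≤ (m+2) (r - pc) x
      have hgap := pow_gap m hy0.le hy1.le
      have e3 : ((m : ℝ) + 1) * ((x - pc) * r) ≤ ((m : ℝ) + 2) * ((r - pc) * x) := by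
        have h8 : x - pc = x * (1 - y ^ (m + 2)) := by rw [mul_sub, hxy, mul_one]
        have h9 : r - pc = r * (1 - y ^ (m + 1)) := by rw [mul_sub, hry, mul_one]
        rw [h8, h9]
        have h10 := mul_le_mul_of_nonneg_left hgap (mul_pos hx0 hr0).le
        nlinarith
      simp only [hK]
      rw [div_mul_div_comm, div_mul_div_comm, div_le_div_iff₀ (by positivity) (by positivity)]
      -- θ r pc (1-r) (m+1) * ((1-θx)(x-pc) θ x) ≤ θ x pc (1-x) θ r * ((1-θ r)(r-pc)(m+2))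
      have e4 : (1 - r) * ((m : ℝ) + 1) * ((1 - θ x) * (x - pc)) ≤
          (1 - x) * ((1 - θ r) * (r - pc) * ((m : ℝ) + 2)) := by
        have h8 : ((1 - θ x) * (x * (1 - r))) * (((m : ℝ) + 1) * ((x - pc) * r)) ≤
            ((1 - θ r) * (r * (1 - x))) * (((m : ℝ) + 2) * ((r - pc) * x)) :=
          mul_le_mul hg e3 (by positivity) (by positivity)
        have h9 : (x * r) * ((1 - r) * ((m : ℝ) + 1) * ((1 - θ x) * (x - pc))) ≤
            (x * r) * ((1 - x) * ((1 - θ r) * (r - pc) * ((m : ℝ) + 2))) := by nlinarith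
        exact le_of_mul_le_mul_left h9 (mul_pos hx0 hr0)
      have h10 := mul_le_mul_of_nonneg_left e4 (mul_pos (mul_pos hx2 hr2) hpc0).le
      nlinarith
    have e5 : (Ks * (((m : ℝ) + 1) / ((m : ℝ) + 2))) ≤ K x * (θ r / θ x) := by
      refine le_trans ?_ e2
      exact mul_le_mul_of_nonneg_right (hKsle r hpcr (hrx.trans h2)) (by positivity)
    calc (Ks * (((m : ℝ) + 1) / ((m : ℝ) + 2))) ^ (m + 2) ≤ (K x * (θ r / θ x)) ^ (m + 2) :=
          pow_le_pow_left₀ (by positivity) e5 _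
      _ = K x ^ (m + 2) * (θ r / θ x) ^ (m + 2) := mul_pow _ _ _
      _ ≤ K x ^ (m + 2) * (1 - 1 / K x) := mul_le_mul_of_nonneg_left e1 (by positivity)
      _ = K x ^ (m + 1) * (K x - 1) := by
          rw [pow_succ (K x) (m + 1)]; field_simp
  -- (e)
  have he : ∀ m : ℕ, (Ks * (((m : ℝ) + 1) / ((m : ℝ) + 2))) ^ (m + 2) ≤ Ks ^ (m + 1) * (Ks - 1) := by
    intro m
    have hc : Tendsto (fun t : ℝ => t ^ (m + 1) * (t - 1)) (𝓝[>] Ks) (𝓝 (Ks ^ (m + 1) * (Ks - 1))) := by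
      refine Tendsto.mono_left ?_ nhdsWithin_le_nhds
      exact ((continuous_pow (m + 1)).tendsto Ks).mul ((continuous_id.sub continuous_const).tendsto Ks)
    refine ge_of_tendsto hc ?_
    filter_upwards [self_mem_nhdsWithin] with t ht
    obtain ⟨_, ⟨x, hx, rfl⟩, hxt⟩ := exists_lt_of_csInf_lt hne ht
    refine (hd m x hx.1 hx.2).trans ?_
    have h1 := hone x hx.1 hx.2
    exact mul_le_mul (pow_le_pow_left₀ (by linarith) hxt.le _) (by linarith) (by linarith)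
      (pow_nonneg (by linarith) _)
  have hf : ∀ m : ℕ, (((m : ℝ) + 1) / ((m : ℝ) + 2)) ^ (m + 2) ≤ 1 - 1 / Ks := by
    intro m
    have h1 := he m
    have hKs0 : 0 < Ks := by linarith
    rw [mul_pow] at h1
    have h2 : Ks ^ (m + 1) * (Ks - 1) = Ks ^ (m + 2) * (1 - 1 / Ks) := by
      rw [pow_succ Ks (m + 1)]; field_simp
    rw [h2] at h1
    exact le_of_mul_le_mul_left h1 (pow_pos hKs0 _)
  have hlim : Tendsto (fun n : ℕ => (1 + (-1 : ℝ) / n) ^ n) atTop (𝓝 (Real.exp (-1))) :=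
    Real.tendsto_one_add_div_pow_exp (-1)
  have hlim2 : Tendsto (fun m : ℕ => (((m : ℝ) + 1) / ((m : ℝ) + 2)) ^ (m + 2)) atTop
      (𝓝 (Real.exp (-1))) := by
    have h1 := hlim.comp (tendsto_add_atTop_nat 2)
    refine h1.congr fun m => ?_
    simp only [Function.comp]
    congr 1
    push_cast
    have : (m : ℝ) + 2 ≠ 0 := by positivity
    field_simp
    ring
  have hfin : Real.exp (-1) ≤ 1 - 1 / Ks := le_of_tendsto' hlim2 hf
  have hKp := hKsle p hp le_rfl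
  obtain ⟨_, _, hx2, hx3⟩ := hI p hp le_rfl
  have h5 : 0 < 1 - p := by linarith
  have h6 : 0 < p - pc := by linarith
  have h7 : 0 < 1 - θ p := by linarith
  have h8 : 1 / K p ≤ 1 / Ks := one_div_le_one_div_of_le (by linarith) hKp
  have h9 : 1 / K p ≤ 1 - Real.exp (-1) := by linarith
  have h10 : 1 / K p = ((1 - θ p) * (p - pc)) / (θ p * (pc * (1 - p))) := by
    simp only [hK]; rw [one_div_div]
  rw [h10, div_le_iff₀ (by positivity)] at h9
  have h11 : Real.exp 1 * (1 - Real.exp (-1)) = Real.exp 1 - 1 := by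
    rw [mul_sub, ← Real.exp_add]; simp
  calc Real.exp 1 * ((1 - θ p) * (p - pc)) ≤
      Real.exp 1 * ((1 - Real.exp (-1)) * (θ p * (pc * (1 - p)))) :=
        mul_le_mul_of_nonneg_left h9 (Real.exp_pos 1).le
    _ = (Real.exp 1 - 1) * (θ p * (pc * (1 - p))) := by rw [← mul_assoc, h11]

end

end Pool.Agent.Helper430_GC
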