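import Pool.Agent.Helper430_GC.Simon

/-!
# The cubic lattice
-/

set_option autoImplicit false
set_option linter.all false

namespace Pool.Agent.Helper430_GC

open Finset Filter Topology

variable {d : ℕ}

/-- end points of the edge `e` -/
def gz (e : (Fin d → ℤ) × Fin d) (s : Bool) : Fin d → ℤ :=
  if s then e.1 + Pi.single e.2 1 else e.1

lemma gz_f (e : (Fin d → ℤ) × Fin d) : gz e false = e.1 := rfl
lemma gz_t (e : (Fin d → ℤ) × Fin d) : gz e true = e.1 + Pi.single e.2 1 := rfl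

/-- points with a large coordinate -/
def Fa (d N : ℕ) : Set (Fin d → ℤ) := {z | ∃ i, (N : ℤ) ≤ |z i|}

/-- the box -/
noncomputable def Wb (d N : ℕ) : Finset (Fin d → ℤ) := Fintype.piFinset (fun _ => Finset.Icc (-(N : ℤ)) N)

lemma mem_Wb {N : ℕ} {z : Fin d → ℤ} : z ∈ Wb d N ↔ ∀ i, |z i| ≤ N := by
  unfold Wb
  rw [Fintype.mem_piFinset]
  simp only [Finset.mem_Icc, abs_le]

/-- edges of the box -/
noncomputable def Eb (d N : ℕ) : Finset ((Fin d → ℤ) × Fin d) :=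
  (Wb d N ×ˢ (Finset.univ : Finset (Fin d))).filter (fun e => gz e true ∈ Wb d N)

lemma mem_Eb {N : ℕ} {e : (Fin d → ℤ) × Fin d} : e ∈ Eb d N ↔ ∀ s, gz e s ∈ Wb d N := by
  unfold Eb
  rw [Finset.mem_filter, Finset.mem_product]
  constructor
  · rintro ⟨⟨h1, _⟩, h2⟩ s
    cases s
    · exact h1
    · exact h2
  · intro h
    exact ⟨⟨h false, Finset.mem_univ _⟩, h true⟩

lemma gz_near (e : (Fin d → ℤ) × Fin d) (s : Bool) (i : Fin d) :
    |gz e (!s) i| ≤ |gz e s i| + 1 := by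
  have h1 : (Pi.single e.2 (1 : ℤ) : Fin d → ℤ) i = 0 ∨
      (Pi.single e.2 (1 : ℤ) : Fin d → ℤ) i = 1 := by
    by_cases h : i = e.2
    · subst h; right; simp
    · left; simp [h]
  have a1 : gz e false i = e.1 i := rfl
  have a2 : gz e true i = e.1 i + (Pi.single e.2 (1 : ℤ) : Fin d → ℤ) i := rfl
  cases s
  · rw [Bool.not_false, a1, a2]
    rcases h1 with h | h <;> rw [h] <;> rw [abs_le] <;> constructor <;>
      rcases abs_cases (e.1 i) with h' | h' <;> omega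
  · rw [Bool.not_true, a1, a2]
    rcases h1 with h | h <;> rw [h]
    · rw [add_zero]; omega
    · rcases abs_cases (e.1 i) with h' | h' <;> rcases abs_cases (e.1 i + 1) with h'' | h'' <;> omega

/-- an edge touching the interior of the box is an edge of the box -/
lemma Eb_of_touch {N : ℕ} {e : (Fin d → ℤ) × Fin d} {s : Bool} (h : gz e s ∉ Fa d N) :
    e ∈ Eb d N := by
  have h1 : ∀ i, |gz e s i| < N := by
    intro i
    by_contra hc
    exact h ⟨i, not_lt.1 hc⟩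
  rw [mem_Eb]
  intro t
  rw [mem_Wb]
  intro i
  by_cases ht : t = s
  · rw [ht]; exact (h1 i).le
  · have : t = !s := by cases t <;> cases s <;> simp_all
    rw [this]
    have h2 := gz_near e s i
    have h3 := h1 i
    omega

/-- locality of the arm event, step along a path -/
lemma arm_key {N : ℕ} {T : Finset ((Fin d → ℤ) × Fin d)} {v : Fin d → ℤ} (h : Cn gz T 0 v) :
    Rc gz (T ∩ Eb d N) (Fa d N) 0 ∨ (Cn gz (T ∩ Eb d N) 0 v ∧ v ∉ Fa d N) := by
  induction h with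
  | refl =>
    by_cases h0 : (0 : Fin d → ℤ) ∈ Fa d N
    · exact Or.inl ⟨0, h0, Cn.rfl'⟩
    · exact Or.inr ⟨Cn.rfl', h0⟩
  | @tail v w _ h1 ih =>
    rcases ih with ih | ⟨ih, hv⟩
    · exact Or.inl ih
    · obtain ⟨f, hf, s, hs1, hs2⟩ := h1
      have hfE : f ∈ Eb d N := Eb_of_touch (s := s) (by rw [hs1]; exact hv)
      have h2 : Cn gz (T ∩ Eb d N) 0 w :=
        ih.trans (Relation.ReflTransGen.single ⟨f, Finset.mem_inter.2 ⟨hf, hfE⟩, s, hs1, hs2⟩)
      by_cases hw : w ∈ Fa d N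
      · exact Or.inl ⟨w, hw, h2⟩
      · exact Or.inr ⟨h2, hw⟩

/-- locality of the arm event -/
lemma arm_loc {N : ℕ} {T : Finset ((Fin d → ℤ) × Fin d)} :
    Rc gz T (Fa d N) 0 ↔ Rc gz (T ∩ Eb d N) (Fa d N) 0 := by
  constructor
  · rintro ⟨z, hz, h⟩
    rcases arm_key (N := N) h with h | h
    · exact h
    · exact absurd hz h.2
  · intro h
    exact h.mono Finset.inter_subset_left

/-- probability of an arm from the origin to distance `N` -/
noncomputable def th (d N : ℕ) (p : ℝ) : ℝ :=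
  Ex (Eb d N) p (fun T => ind (Rc gz T (Fa d N) 0))

lemma arm_Ex {N : ℕ} {E : Finset ((Fin d → ℤ) × Fin d)} (hE : Eb d N ⊆ E) (p : ℝ) :
    Ex E p (fun T => ind (Rc gz T (Fa d N) 0)) = th d N p := by
  rw [th, Ex_dep hE]
  intro T _
  exact ind_congr arm_loc

lemma Wb_mono {N M : ℕ} (h : N ≤ M) : Wb d N ⊆ Wb d M := by
  intro z hz
  rw [mem_Wb] at hz ⊢
  intro i
  have h1 := hz i
  have h2 : (N : ℤ) ≤ M := by exact_mod_cast h
  omega

lemma Eb_mono {N M : ℕ} (h : N ≤ M) : Eb d N ⊆ Eb d M := by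
  intro e he
  rw [mem_Eb] at he ⊢
  exact fun s => Wb_mono h (he s)

lemma th_anti (p : ℝ) (h0 : 0 ≤ p) (h1 : p ≤ 1) : Antitone (fun N => th d N p) := by
  refine antitone_nat_of_succ_le fun N => ?_
  rw [← arm_Ex (Eb_mono (Nat.le_succ N)) p]
  unfold th
  refine Ex_mono h0 h1 fun T _ => ind_mono ?_
  rintro ⟨z, ⟨i, hi⟩, h⟩
  refine ⟨z, ⟨i, ?_⟩, h⟩
  push_cast at hi
  omega

lemma th_nonneg (N : ℕ) {p : ℝ} (h0 : 0 ≤ p) (h1 : p ≤ 1) : 0 ≤ th d N p :=
  Ex_nonneg h0 h1 fun T _ => ind_nn _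

lemma th_le_one (N : ℕ) {p : ℝ} (h0 : 0 ≤ p) (h1 : p ≤ 1) : th d N p ≤ 1 :=
  Ex_le_one h0 h1 fun T _ => ind_le1 _

lemma th_mono (N : ℕ) {q p : ℝ} (h0 : 0 ≤ q) (hqp : q ≤ p) (h1 : p ≤ 1) : th d N q ≤ th d N p :=
  Ex_param h0 hqp h1 fun T U hTU => ind_mono fun h => h.mono hTU

/-- the percolation probability -/
noncomputable def ti (d : ℕ) (p : ℝ) : ℝ := ⨅ N, th d N p

lemma th_bdd {p : ℝ} (h0 : 0 ≤ p) (h1 : p ≤ 1) : BddBelow (Set.range fun N => th d N p) :=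
  ⟨0, by rintro _ ⟨N, rfl⟩; exact th_nonneg N h0 h1⟩

lemma ti_tendsto {p : ℝ} (h0 : 0 ≤ p) (h1 : p ≤ 1) :
    Tendsto (fun N => th d N p) atTop (𝓝 (ti d p)) :=
  tendsto_atTop_ciInf (th_anti p h0 h1) (th_bdd h0 h1)

lemma ti_nonneg {p : ℝ} (h0 : 0 ≤ p) (h1 : p ≤ 1) : 0 ≤ ti d p :=
  le_ciInf fun N => th_nonneg N h0 h1

lemma ti_le {p : ℝ} (h0 : 0 ≤ p) (h1 : p ≤ 1) (N : ℕ) : ti d p ≤ th d N p :=
  ciInf_le (th_bdd h0 h1) N

lemma ti_le_one {p : ℝ} (h0 : 0 ≤ p) (h1 : p ≤ 1) : ti d p ≤ 1 :=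
  (ti_le h0 h1 0).trans (th_le_one 0 h0 h1)

lemma ti_mono {q p : ℝ} (h0 : 0 ≤ q) (hqp : q ≤ p) (h1 : p ≤ 1) : ti d q ≤ ti d p := by
  refine le_ciInf fun N => ?_
  exact (ti_le h0 (hqp.trans h1) N).trans (th_mono N h0 hqp h1)

/-- translation of edges -/
def sh (y : Fin d → ℤ) (e : (Fin d → ℤ) × Fin d) : (Fin d → ℤ) × Fin d := (e.1 + y, e.2)

lemma sh_inj (y : Fin d → ℤ) : Function.Injective (sh y) := by
  intro e e' h
  unfold sh at h
  rw [Prod.mk.injEq] at h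
  exact Prod.ext (add_right_cancel h.1) h.2

lemma gz_sh (y : Fin d → ℤ) (e : (Fin d → ℤ) × Fin d) (s : Bool) :
    gz (sh y e) s = gz e s + y := by
  cases s
  · rfl
  · show e.1 + y + Pi.single e.2 1 = e.1 + Pi.single e.2 1 + y
    abel

lemma Cn_sh (y : Fin d → ℤ) {T : Finset ((Fin d → ℤ) × Fin d)} {u v : Fin d → ℤ}
    (h : Cn gz T u v) : Cn gz (T.image (sh y)) (u + y) (v + y) := by
  induction h with
  | refl => exact Cn.rfl'
  | @tail v w _ h1 ih =>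
    obtain ⟨f, hf, s, hs1, hs2⟩ := h1
    refine ih.trans (Relation.ReflTransGen.single ⟨sh y f, ?_, s, ?_, ?_⟩)
    · exact Finset.mem_image_of_mem _ hf
    · rw [gz_sh, hs1]
    · rw [gz_sh, hs2]

/-- arms from other points -/
lemma arm_other {M K M' : ℕ} (h : M' + K ≤ M) {y : Fin d → ℤ} (hy : y ∈ Wb d K) {q : ℝ}
    (h0 : 0 ≤ q) (h1 : q ≤ 1) :
    Ex (Eb d M) q (fun T => ind (Rc gz T (Fa d M) y)) ≤ th d M' q := by
  rw [mem_Wb] at hy
  have hsub : Eb d M' ⊆ (Eb d M).image (sh (-y)) := by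
    intro e he
    rw [Finset.mem_image]
    refine ⟨sh y e, ?_, ?_⟩
    · rw [mem_Eb] at he ⊢
      intro s
      have h2 := he s
      rw [mem_Wb] at h2 ⊢
      intro i
      rw [gz_sh, Pi.add_apply]
      have h3 := h2 i
      have h4 := hy i
      have h5 := abs_add_le (gz e s i) (y i)
      have h6 : (M' : ℤ) + K ≤ M := by exact_mod_cast h
      omega
    · show ((e.1 + y) + (-y), e.2) = e
      rw [add_neg_cancel_right]
  rw [← arm_Ex hsub q, Ex_image _ _ (sh_inj _)]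
  refine Ex_mono h0 h1 fun T _ => ind_mono ?_
  rintro ⟨z, ⟨i, hi⟩, hc⟩
  have h2 := Cn_sh (-y) hc
  rw [add_neg_cancel] at h2
  refine ⟨z + -y, ⟨i, ?_⟩, h2⟩
  rw [Pi.add_apply, Pi.neg_apply]
  have h4 := hy i
  have h6 : (M' : ℤ) + K ≤ M := by exact_mod_cast h
  have h7 := abs_sub_abs_le_abs_sub (z i) (y i)
  rw [← sub_eq_add_neg]
  omega

lemma bd_box {N M : ℕ} (hNM : N ≤ M) {S : Finset (Fin d → ℤ)} (hS : ∀ x ∈ S, x ∉ Fa d N) :
    bd gz (Eb d M) S = bd gz (Eb d N) S := by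
  ext z
  unfold bd
  rw [Finset.mem_filter, Finset.mem_filter, Finset.mem_product, Finset.mem_product]
  constructor
  · rintro ⟨⟨_, h2⟩, h3, h4⟩
    exact ⟨⟨Eb_of_touch (hS _ h3), h2⟩, h3, h4⟩
  · rintro ⟨⟨h1, h2⟩, h3, h4⟩
    exact ⟨⟨Eb_mono hNM h1, h2⟩, h3, h4⟩

lemma inS_box {N M : ℕ} (hNM : N ≤ M) {S : Finset (Fin d → ℤ)} (hS : ∀ x ∈ S, x ∉ Fa d N) :
    inS gz (Eb d M) S = inS gz (Eb d N) S := by
  ext z
  unfold inS
  rw [Finset.mem_filter, Finset.mem_filter]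
  constructor
  · rintro ⟨h1, h2⟩
    exact ⟨Eb_of_touch (hS _ (h2 true)), h2⟩
  · rintro ⟨h1, h2⟩
    exact ⟨Eb_mono hNM h1, h2⟩

lemma Fa_box {N M : ℕ} (hNM : N ≤ M) {S : Finset (Fin d → ℤ)} (hS : ∀ x ∈ S, x ∉ Fa d N) :
    ∀ x ∈ S, x ∉ Fa d M := by
  intro x hx hxM
  apply hS x hx
  obtain ⟨i, hi⟩ := hxM
  have h2 : (N : ℤ) ≤ M := by exact_mod_cast hNM
  exact ⟨i, by omega⟩

/-- the boundary sum -/
noncomputable def ph (d N : ℕ) (S : Finset (Fin d → ℤ)) (q : ℝ) : ℝ :=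
  ∑ z ∈ bd gz (Eb d N) S, Ex (inS gz (Eb d N) S) q (fun T => ind (Cn gz T 0 (gz z.1 z.2)))

lemma th_step {N M : ℕ} (hNM : N ≤ M) {S : Finset (Fin d → ℤ)} (hS : ∀ x ∈ S, x ∉ Fa d N)
    (h0S : 0 ∈ S) {q : ℝ} (h0 : 0 ≤ q) (h1 : q ≤ 1) :
    th d M q ≤ ph d N S q * (q * th d (M - N) q) := by
  have h2 := simon (g := gz) (E := Eb d M) (B := Fa d M) (Fa_box hNM hS) h0S h0 h1
  rw [bd_box hNM hS, inS_box hNM hS] at h2
  refine h2.trans ?_
  rw [ph, Finset.sum_mul]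
  refine Finset.sum_le_sum fun z hz => ?_
  refine mul_le_mul_of_nonneg_left ?_ (Ex_nonneg h0 h1 fun T _ => ind_nn _)
  refine mul_le_mul_of_nonneg_left ?_ h0
  refine arm_other (K := N) (by omega) ?_ h0 h1
  unfold bd at hz
  rw [Finset.mem_filter, Finset.mem_product] at hz
  exact mem_Eb.1 hz.1.1 _

/-- the sum over the boundary of a finite set is at least one in the percolating regime -/
lemma phi_ge {N : ℕ} {S : Finset (Fin d → ℤ)} (hS : ∀ x ∈ S, x ∉ Fa d N) (h0S : 0 ∈ S) {q : ℝ}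
    (h0 : 0 < q) (h1 : q ≤ 1) (hpos : 0 < ti d q) :
    1 / q ≤ ph d N S q := by
  have hlim1 : Tendsto (fun M => th d (M + N) q) atTop (𝓝 (ti d q)) :=
    (ti_tendsto h0.le h1).comp (tendsto_add_atTop_nat N)
  have hlim2 : Tendsto (fun M => ph d N S q * (q * th d M q)) atTop
      (𝓝 (ph d N S q * (q * ti d q))) :=
    ((ti_tendsto h0.le h1).const_mul q).const_mul _
  have h3 : ti d q ≤ ph d N S q * (q * ti d q) := by
    refine le_of_tendsto_of_tendsto' hlim1 hlim2 fun M => ?_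
    have := th_step (N := N) (M := M + N) (by omega) hS h0S h0.le h1
    rwa [Nat.add_sub_cancel] at this
  rw [div_le_iff₀ h0]
  have h4 : 1 * ti d q ≤ (ph d N S q * q) * ti d q := by rw [one_mul, mul_assoc]; exact h3
  exact le_of_mul_le_mul_right h4 hpos

/-- The key inequality for the percolation probability at three parameters. -/
theorem key {p α : ℝ} (hp0 : 0 < p) (hp1 : p < 1) (hα0 : 0 < α) (hα1 : α ≤ 1) (n : ℕ)
    (hpos : 0 < ti d (p * α ^ n)) :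
    (p - p * α ^ n) / (p * α ^ n * (1 - p)) * (1 - ti d p) ≤
      ti d p - ti d p * (ti d (p * α) / ti d p) ^ n := by
  set q := p * α ^ n with hq
  have hαn : 0 < α ^ n := pow_pos hα0 n
  have hαn1 : α ^ n ≤ 1 := pow_le_one₀ hα0.le hα1
  have hq0 : 0 < q := mul_pos hp0 hαn
  have hqp : q ≤ p := by rw [hq]; nlinarith
  have hti : 0 < ti d p := lt_of_lt_of_le hpos (ti_mono hq0.le hqp hp1.le)
  have hfin : ∀ N, (p - q) / (q * (1 - p)) * (1 - th d N p) ≤
      th d N p - th d N p * (th d N (p * α) / th d N p) ^ n := by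
    intro N
    have hthp : 0 < th d N p := hti.trans_le (ti_le hp0.le hp1.le N)
    by_cases h00 : (0 : Fin d → ℤ) ∈ Fa d N
    · have h1 : ∀ (E : Finset ((Fin d → ℤ) × Fin d)) (r : ℝ),
          Ex E r (fun T => ind (Rc gz T (Fa d N) 0)) = 1 := by
        intro E r
        have : Ex E r (fun T => ind (Rc gz T (Fa d N) 0)) = Ex E r (fun _ => 1) :=
          Ex_congr fun T _ => ind_t ⟨0, h00, Cn.rfl'⟩
        rw [this, Ex_const]
      unfold th
      rw [h1, h1]; simp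
    · have h0W : (0 : Fin d → ℤ) ∈ Wb d N := by
        rw [mem_Wb]; intro i; simp
      have h2 := core2 (g := gz) (B := Fa d N) (E := Eb d N) (W := Wb d N) (o := 0)
        (fun e he s => mem_Eb.1 he s) h0W hp0.le hp1 hα0.le hα1 n (fun _ => 1 / q)
        (fun S hSW h0S hSB => phi_ge hSB h0S hq0 (hqp.trans hp1.le) hpos) hthp
      have h3 : Ex (Eb d N) p (fun T => ind (¬ Rc gz T (Fa d N) 0) * (1 / q)) =
          (1 - th d N p) * (1 / q) := by
        rw [Ex_mul_right]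
        congr 1
        simp only [ind_not]
        rw [Ex_sub, Ex_const]
        rfl
      rw [h3] at h2
      have h4 : p * (1 - α ^ n) / (1 - p) * ((1 - th d N p) * (1 / q)) =
          (p - q) / (q * (1 - p)) * (1 - th d N p) := by
        have : p * (1 - α ^ n) = p - q := by rw [hq]; ring
        rw [this]
        have h5 : 1 - p ≠ 0 := by intro h; linarith
        field_simp
      rw [h4] at h2
      exact h2
  have hαp : p * α ≤ 1 := by nlinarith
  have t1 : Tendsto (fun N => th d N p) atTop (𝓝 (ti d p)) := ti_tendsto hp0.le hp1.le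
  have t2 : Tendsto (fun N => th d N (p * α)) atTop (𝓝 (ti d (p * α))) :=
    ti_tendsto (mul_nonneg hp0.le hα0.le) hαp
  have t3 := (t1.const_sub 1).const_mul ((p - q) / (q * (1 - p)))
  have t4 := t1.sub (t1.mul ((t2.div t1 hti.ne').pow n))
  exact le_of_tendsto_of_tendsto' t3 t4 hfin

end Pool.Agent.Helper430_GC
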