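import Pool.Agent.Helper430_GC.Ex

/-!
# Bond percolation on a finite set of edges and the non-retained pivotal edges
-/

set_option autoImplicit false
set_option linter.all false

namespace Pool.Agent.Helper430_GC

open Finset

section ind

open Classical in
/-- indicator of a proposition -/
noncomputable def ind (P : Prop) : ℝ := if P then 1 else 0

lemma ind_t {P : Prop} (h : P) : ind P = 1 := by simp [ind, h]
lemma ind_f {P : Prop} (h : ¬ P) : ind P = 0 := by simp [ind, h]
lemma ind_nn (P : Prop) : 0 ≤ ind P := by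
  by_cases h : P
  · rw [ind_t h]; norm_num
  · rw [ind_f h]
lemma ind_le1 (P : Prop) : ind P ≤ 1 := by
  by_cases h : P
  · rw [ind_t h]
  · rw [ind_f h]; norm_num
lemma ind_mono {P Q : Prop} (h : P → Q) : ind P ≤ ind Q := by
  by_cases hP : P
  · rw [ind_t hP, ind_t (h hP)]
  · rw [ind_f hP]; exact ind_nn Q
lemma ind_congr {P Q : Prop} (h : P ↔ Q) : ind P = ind Q := by
  rw [propext h]
lemma ind_and (P Q : Prop) : ind (P ∧ Q) = ind P * ind Q := by
  by_cases hP : P <;> by_cases hQ : Q <;> simp [ind, hP, hQ]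
lemma ind_not (P : Prop) : ind (¬ P) = 1 - ind P := by
  by_cases hP : P <;> simp [ind, hP]

end ind

variable {ι : Type*} [DecidableEq ι] {V : Type*} [DecidableEq V]

/-- a step along an edge of `T`; the edge `e` joins `g e false` and `g e true` -/
def St (g : ι → Bool → V) (T : Finset ι) (u v : V) : Prop :=
  ∃ e ∈ T, ∃ s, g e s = u ∧ g e (!s) = v

/-- connected by edges of `T` -/
def Cn (g : ι → Bool → V) (T : Finset ι) (u v : V) : Prop := Relation.ReflTransGen (St g T) u v

/-- connected to the target set `B` by edges of `T` -/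
def Rc (g : ι → Bool → V) (T : Finset ι) (B : Set V) (u : V) : Prop := ∃ z ∈ B, Cn g T u z

variable {g : ι → Bool → V} {B : Set V}

lemma St.symm {T : Finset ι} {u v : V} (h : St g T u v) : St g T v u := by
  obtain ⟨e, he, s, h1, h2⟩ := h
  exact ⟨e, he, !s, h2, by rw [Bool.not_not]; exact h1⟩

lemma St.mono {T T' : Finset ι} (hT : T ⊆ T') {u v : V} (h : St g T u v) : St g T' u v := by
  obtain ⟨e, he, s, h1, h2⟩ := h
  exact ⟨e, hT he, s, h1, h2⟩

lemma Cn.rfl' {T : Finset ι} {u : V} : Cn g T u u := Relation.ReflTransGen.refl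

lemma Cn.symm {T : Finset ι} {u v : V} (h : Cn g T u v) : Cn g T v u := by
  induction h with
  | refl => exact Relation.ReflTransGen.refl
  | tail _ h2 ih => exact Relation.ReflTransGen.head h2.symm ih

lemma Cn.trans {T : Finset ι} {u v w : V} (h : Cn g T u v) (h' : Cn g T v w) : Cn g T u w :=
  Relation.ReflTransGen.trans h h'

lemma Cn.mono {T T' : Finset ι} (hT : T ⊆ T') {u v : V} (h : Cn g T u v) : Cn g T' u v := by
  induction h with
  | refl => exact Relation.ReflTransGen.refl
  | tail _ h2 ih => exact Relation.ReflTransGen.tail ih (h2.mono hT)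

lemma Cn.edge {T : Finset ι} {e : ι} (he : e ∈ T) (s : Bool) : Cn g T (g e s) (g e (!s)) :=
  Relation.ReflTransGen.single ⟨e, he, s, rfl, rfl⟩

lemma Rc.mono {T T' : Finset ι} (hT : T ⊆ T') {u : V} (h : Rc g T B u) : Rc g T' B u := by
  obtain ⟨z, hz, h⟩ := h
  exact ⟨z, hz, h.mono hT⟩

lemma Rc.of {T : Finset ι} {u v : V} (h : Cn g T u v) (h' : Rc g T B v) : Rc g T B u := by
  obtain ⟨z, hz, h'⟩ := h'
  exact ⟨z, hz, h.trans h'⟩

/-- removal of one edge -/
lemma Rc.erase {T : Finset ι} {u : V} (h : Rc g T B u) (e : ι) :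
    Rc g (T.erase e) B u ∨ ∃ s, Rc g (T.erase e) B (g e s) := by
  obtain ⟨z, hz, h⟩ := h
  induction h using Relation.ReflTransGen.head_induction_on with
  | refl => exact Or.inl ⟨z, hz, Cn.rfl'⟩
  | @head v w h1 _ ih =>
    obtain ⟨f, hf, s, hs1, hs2⟩ := h1
    rcases ih with ih | ih
    · by_cases hfe : f = e
      · subst hfe
        exact Or.inr ⟨!s, by rw [hs2]; exact ih⟩
      · left
        have h2 := Cn.edge (g := g) (T := T.erase e) (Finset.mem_erase.2 ⟨hfe, hf⟩) s
        rw [hs1, hs2] at h2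
        exact Rc.of h2 ih
    · exact Or.inr ih

/-- the pivotal edges -/
noncomputable def Pv (g : ι → Bool → V) (B : Set V) (o : V) (T : Finset ι) : Finset ι :=
  open scoped Classical in T.filter (fun e => ¬ Rc g (T.erase e) B o)

/-- the oriented edge `(e, s)` is not retained and joins the part connected to `o` to the target -/
def BB (g : ι → Bool → V) (B : Set V) (o : V) (T U : Finset ι) (e : ι) (s : Bool) : Prop :=
  e ∈ T ∧ e ∉ U ∧ ¬ Rc g (T.erase e) B (g e s) ∧ Rc g (T.erase e) B (g e (!s)) ∧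
    Cn g (T ∩ U) o (g e s)

lemma BB_cn {o : V} {T U : Finset ι} {e : ι} {s : Bool} (h : BB g B o T U e s) (f : ι)
    (hf : f ∉ U) : Cn g (T.erase f) o (g e s) := by
  refine Cn.mono ?_ h.2.2.2.2
  intro x hx
  rw [Finset.mem_inter] at hx
  rw [Finset.mem_erase]
  refine ⟨?_, hx.1⟩
  rintro rfl
  exact hf hx.2

lemma BB_unique {o : V} {T U : Finset ι} {e e' : ι} {s s' : Bool} (h : BB g B o T U e s)
    (h' : BB g B o T U e' s') : e = e' ∧ s = s' := by
  by_cases hee : e = e'
  · subst hee
    refine ⟨rfl, ?_⟩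
    by_contra hss
    have : s' = !s := by
      cases s <;> cases s' <;> simp_all
    rw [this] at h'
    exact h'.2.2.1 h.2.2.2.1
  · exfalso
    -- connections of `o`
    have c1 : Cn g (T.erase e) o (g e s) := BB_cn h e h.2.1
    have c2 : Cn g (T.erase e') o (g e s) := BB_cn h e' h'.2.1
    have c3 : Cn g (T.erase e) o (g e' s') := BB_cn h' e h.2.1
    have c4 : Cn g (T.erase e') o (g e' s') := BB_cn h' e' h'.2.1
    have heT' : e ∈ T.erase e' := Finset.mem_erase.2 ⟨hee, h.1⟩
    have heT : e' ∈ T.erase e := Finset.mem_erase.2 ⟨fun h => hee h.symm, h'.1⟩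
    have hcase : Rc g ((T.erase e).erase e') B (g e (!s)) ∨
        Rc g ((T.erase e).erase e') B (g e' (!s')) := by
      rcases h.2.2.2.1.erase e' with h1 | ⟨t, h1⟩
      · exact Or.inl h1
      · right
        have ht : t ≠ s' := by
          rintro rfl
          apply h'.2.2.1
          refine Rc.mono ?_ h1
          rw [Finset.erase_right_comm]
          exact Finset.erase_subset _ _
        have : t = !s' := by
          cases t <;> cases s' <;> simp_all
        rwa [this] at h1
    rcases hcase with h1 | h1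
    · have h2 : Rc g (T.erase e') B (g e (!s)) := Rc.mono (by
        rw [Finset.erase_right_comm]; exact Finset.erase_subset _ _) h1
      have h3 : Rc g (T.erase e') B (g e s) := Rc.of (Cn.edge heT' s) h2
      exact h'.2.2.1 (Rc.of (c4.symm.trans c2) h3)
    · have h2 : Rc g (T.erase e) B (g e' (!s')) := Rc.mono (Finset.erase_subset _ _) h1
      have h3 : Rc g (T.erase e) B (g e' s') := Rc.of (Cn.edge heT s') h2
      exact h.2.2.1 (Rc.of (c1.symm.trans c3) h3)

lemma BB_arm {o : V} {T U : Finset ι} {e : ι} {s : Bool} (h : BB g B o T U e s) :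
    Rc g T B o := by
  have h1 : Rc g T B (g e (!s)) := h.2.2.2.1.mono (Finset.erase_subset _ _)
  have h2 : Rc g T B (g e s) := Rc.of (Cn.edge h.1 s) h1
  exact Rc.of (h.2.2.2.2.mono Finset.inter_subset_left) h2

lemma BB_piv {o : V} {T U : Finset ι} {e : ι} {s : Bool} (h : BB g B o T U e s) :
    ¬ Pv g B o T ⊆ U := by
  classical
  intro hs
  apply h.2.1
  apply hs
  unfold Pv
  rw [Finset.mem_filter]
  refine ⟨h.1, fun h2 => h.2.2.1 ?_⟩
  exact Rc.of (BB_cn h e h.2.1).symm h2

/-- at most one of the events holds, and then some pivotal edge is not retained -/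
lemma BB_sum (E : Finset ι) (o : V) (T U : Finset ι) :
    ∑ z ∈ E ×ˢ (Finset.univ : Finset Bool), ind (BB g B o T U z.1 z.2) ≤
      ind (Rc g T B o) * (1 - ind (Pv g B o T ⊆ U)) := by
  classical
  by_cases h : ∃ z ∈ E ×ˢ (Finset.univ : Finset Bool), BB g B o T U z.1 z.2
  · obtain ⟨z, hz, h⟩ := h
    rw [Finset.sum_eq_single z]
    · rw [ind_t h, ind_t (BB_arm h), ind_f (BB_piv h)]; norm_num
    · intro z' _ hne
      refine ind_f fun h' => hne ?_
      obtain ⟨h1, h2⟩ := BB_unique h' h
      exact Prod.ext h1 h2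
    · intro h'; exact absurd hz h'
  · push Not at h
    rw [Finset.sum_eq_zero fun z hz => ind_f (h z hz)]
    have h1 := ind_nn (Rc g T B o)
    have h2 := ind_le1 (Pv g B o T ⊆ U)
    nlinarith

/-- probability of one of the events -/
lemma BB_prob {E : Finset ι} {e : ι} (he : e ∈ E) (s : Bool) (o : V) (p ρ : ℝ) (hp : p ≠ 1) :
    Ex E p (fun T => Ex E ρ (fun U => ind (BB g B o T U e s))) =
      (p * (1 - ρ) / (1 - p)) * Ex E p (fun T => Ex E ρ (fun U =>
        ind (¬ Rc g T B (g e s) ∧ Rc g T B (g e (!s)) ∧ Cn g (T ∩ U) o (g e s)))) := by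
  classical
  set F : Finset ι → Finset ι → ℝ := fun T U =>
    ind (¬ Rc g T B (g e s) ∧ Rc g T B (g e (!s)) ∧ Cn g (T ∩ U) o (g e s)) with hF
  set E0 := E.erase e with hE0
  have he0 : e ∉ E0 := Finset.notMem_erase e E
  have hE : E = insert e E0 := (Finset.insert_erase he).symm
  have h1 : Ex E p (fun T => Ex E ρ (fun U => ind (BB g B o T U e s))) =
      p * (1 - ρ) * Ex E0 p (fun T => Ex E0 ρ (fun U => F T U)) := by
    rw [hE, Ex_insert he0]
    have a1 : Ex E0 p (fun T => Ex (insert e E0) ρ (fun U => ind (BB g B o T U e s))) = 0 := by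
      rw [← Ex_const E0 p 0]
      refine Ex_congr fun T hT => ?_
      rw [← Ex_const (insert e E0) ρ 0]
      refine Ex_congr fun U hU => ?_
      exact ind_f fun h => he0 (hT h.1)
    have a2 : Ex E0 p (fun T => Ex (insert e E0) ρ (fun U => ind (BB g B o (insert e T) U e s))) =
        (1 - ρ) * Ex E0 p (fun T => Ex E0 ρ (fun U => F T U)) := by
      rw [← Ex_mul_left]
      refine Ex_congr fun T hT => ?_
      have heT : e ∉ T := fun h => he0 (hT h)
      rw [Ex_insert he0]
      have a3 : Ex E0 ρ (fun U => ind (BB g B o (insert e T) (insert e U) e s)) = 0 := by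
        rw [← Ex_const E0 ρ 0]
        refine Ex_congr fun U hU => ?_
        exact ind_f fun h => h.2.1 (Finset.mem_insert_self _ _)
      rw [a3, mul_zero, zero_add]
      congr 1
      refine Ex_congr fun U hU => ?_
      have heU : e ∉ U := fun h => he0 (hU h)
      refine ind_congr ?_
      unfold BB
      rw [Finset.erase_insert heT, Finset.insert_inter_of_notMem heU]
      constructor
      · rintro ⟨_, _, h⟩; exact h
      · intro h; exact ⟨Finset.mem_insert_self _ _, heU, h⟩
    rw [a1, a2]; ring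
  have h2 : Ex E p (fun T => Ex E ρ (fun U => F T U)) =
      (1 - p) * Ex E0 p (fun T => Ex E0 ρ (fun U => F T U)) := by
    rw [hE, Ex_insert he0]
    have a1 : Ex E0 p (fun T => Ex (insert e E0) ρ (fun U => F (insert e T) U)) = 0 := by
      rw [← Ex_const E0 p 0]
      refine Ex_congr fun T hT => ?_
      rw [← Ex_const (insert e E0) ρ 0]
      refine Ex_congr fun U hU => ?_
      refine ind_f fun h => h.1 ?_
      exact Rc.of (Cn.edge (Finset.mem_insert_self _ _) s) h.2.1
    have a2 : Ex E0 p (fun T => Ex (insert e E0) ρ (fun U => F T U)) =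
        Ex E0 p (fun T => Ex E0 ρ (fun U => F T U)) := by
      refine Ex_congr fun T hT => ?_
      have heT : e ∉ T := fun h => he0 (hT h)
      rw [Ex_insert he0]
      have a3 : Ex E0 ρ (fun U => F T (insert e U)) = Ex E0 ρ (fun U => F T U) := by
        refine Ex_congr fun U hU => ?_
        simp only [hF]
        rw [Finset.inter_insert_of_notMem heT]
      rw [a3]; ring
    rw [a1, a2]; ring
  rw [h1, h2]
  have h3 : 1 - p ≠ 0 := fun h => hp (by linarith)
  field_simp

/-- edges inside `S` -/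
def inS (g : ι → Bool → V) (E : Finset ι) (S : Finset V) : Finset ι :=
  E.filter (fun e => ∀ s, g e s ∈ S)

lemma inS_sub {E : Finset ι} {S : Finset V} : inS g E S ⊆ E := Finset.filter_subset _ _

/-- oriented edges leaving `S` -/
def bd (g : ι → Bool → V) (E : Finset ι) (S : Finset V) : Finset (ι × Bool) :=
  (E ×ˢ (Finset.univ : Finset Bool)).filter (fun z => g z.1 z.2 ∈ S ∧ g z.1 (!z.2) ∉ S)

/-- the points of `W` not connected to the target -/
noncomputable def SS (g : ι → Bool → V) (B : Set V) (W : Finset V) (T : Finset ι) : Finset V :=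
  open scoped Classical in W.filter (fun x => ¬ Rc g T B x)

lemma mem_SS {W : Finset V} {T : Finset ι} {x : V} :
    x ∈ SS g B W T ↔ x ∈ W ∧ ¬ Rc g T B x := by
  classical
  unfold SS
  rw [Finset.mem_filter]

lemma Rc_sdiff {E T : Finset ι} {S : Finset V} (hS : ∀ x ∈ S, ¬ Rc g (T \ inS g E S) B x)
    {v : V} (h : Rc g T B v) : Rc g (T \ inS g E S) B v := by
  obtain ⟨z, hz, h⟩ := h
  induction h using Relation.ReflTransGen.head_induction_on with
  | refl => exact ⟨z, hz, Cn.rfl'⟩
  | @head v w h1 _ ih =>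
    obtain ⟨f, hf, s, hs1, hs2⟩ := h1
    have h3 : w ∉ S := fun h => hS w h ih
    have h4 : f ∉ inS g E S := by
      intro h
      apply h3
      rw [← hs2]
      exact (Finset.mem_filter.1 h).2 _
    have h2 := Cn.edge (g := g) (T := T \ inS g E S) (Finset.mem_sdiff.2 ⟨hf, h4⟩) s
    rw [hs1, hs2] at h2
    exact Rc.of h2 ih

lemma SS_iff {E T : Finset ι} {W S : Finset V} :
    SS g B W T = S ↔ SS g B W (T \ inS g E S) = S := by
  have key : (∀ x ∈ S, ¬ Rc g (T \ inS g E S) B x) →
      SS g B W T = SS g B W (T \ inS g E S) := by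
    intro h
    ext x
    rw [mem_SS, mem_SS]
    have : Rc g T B x ↔ Rc g (T \ inS g E S) B x :=
      ⟨fun h' => Rc_sdiff h h', fun h' => h'.mono Finset.sdiff_subset⟩
    rw [this]
  constructor
  · intro h
    rw [← key ?_]
    · exact h
    · intro x hx h'
      rw [← h, mem_SS] at hx
      exact hx.2 (h'.mono Finset.sdiff_subset)
  · intro h
    rw [key ?_]
    · exact h
    · intro x hx h'
      have hx' := hx
      rw [← h, mem_SS] at hx'
      exact hx'.2 h'

/-- the path from `o` stays inside the part not connected to the target -/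
lemma Cn_inS {E T U : Finset ι} {W S : Finset V} (hT : T ⊆ E) (hE : ∀ e ∈ E, ∀ s, g e s ∈ W)
    (hS : SS g B W T = S) {o x : V} (ho : o ∈ S) (h : Cn g (T ∩ U) o x) :
    Cn g ((T ∩ inS g E S) ∩ U) o x ∧ x ∈ S := by
  induction h with
  | refl => exact ⟨Cn.rfl', ho⟩
  | @tail v w _ h1 ih =>
    obtain ⟨f, hf, s, hs1, hs2⟩ := h1
    rw [Finset.mem_inter] at hf
    have hv : v ∈ S := ih.2
    have hw : w ∈ S := by
      rw [← hS, mem_SS] at hv ⊢
      refine ⟨by rw [← hs2]; exact hE f (hT hf.1) _, fun h => hv.2 ?_⟩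
      have h2 := Cn.edge (g := g) (T := T) hf.1 s
      rw [hs1, hs2] at h2
      exact Rc.of h2 h
    have hfS : f ∈ inS g E S := by
      unfold inS
      rw [Finset.mem_filter]
      refine ⟨hT hf.1, fun t => ?_⟩
      by_cases ht : t = s
      · rw [ht, hs1]; exact hv
      · have : t = !s := by cases t <;> cases s <;> simp_all
        rw [this, hs2]; exact hw
    refine ⟨ih.1.trans (Relation.ReflTransGen.single ⟨f, ?_, s, hs1, hs2⟩), hw⟩
    rw [Finset.mem_inter, Finset.mem_inter]
    exact ⟨⟨hf.1, hfS⟩, hf.2⟩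

/-- The main inequality for a finite set of edges. -/
theorem core {E : Finset ι} {W : Finset V} (hE : ∀ e ∈ E, ∀ s, g e s ∈ W) {o : V} (ho : o ∈ W)
    {p ρ : ℝ} (hp0 : 0 ≤ p) (hp1 : p < 1) (hρ0 : 0 ≤ ρ) (hρ1 : ρ ≤ 1) (Φ : Finset V → ℝ)
    (hΦ : ∀ S ⊆ W, o ∈ S → (∀ x ∈ S, x ∉ B) →
      Φ S ≤ ∑ z ∈ bd g E S, Ex (inS g E S) (p * ρ) (fun T => ind (Cn g T o (g z.1 z.2)))) :
    (p * (1 - ρ) / (1 - p)) * Ex E p (fun T => ind (¬ Rc g T B o) * Φ (SS g B W T)) ≤
      Ex E p (fun T => ind (Rc g T B o) * (1 - ρ ^ (Pv g B o T).card)) := by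
  classical
  have h1p : 0 < 1 - p := by linarith
  have hc : 0 ≤ p * (1 - ρ) / (1 - p) := by
    have : 0 ≤ 1 - ρ := by linarith
    positivity
  set F : ι × Bool → Finset ι → Finset ι → ℝ := fun z T U =>
    ind (¬ Rc g T B (g z.1 z.2) ∧ Rc g T B (g z.1 (!z.2)) ∧ Cn g (T ∩ U) o (g z.1 z.2)) with hF
  -- step 1
  have s1 : ∑ z ∈ E ×ˢ (Finset.univ : Finset Bool),
      Ex E p (fun T => Ex E ρ (fun U => ind (BB g B o T U z.1 z.2))) ≤
      Ex E p (fun T => ind (Rc g T B o) * (1 - ρ ^ (Pv g B o T).card)) := by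
    rw [← Ex_sum]
    refine Ex_mono hp0 hp1.le fun T hT => ?_
    rw [← Ex_sum]
    have h2 : Ex E ρ (fun U => ind (Rc g T B o) * (1 - ind (Pv g B o T ⊆ U))) =
        ind (Rc g T B o) * (1 - ρ ^ (Pv g B o T).card) := by
      rw [Ex_mul_left, Ex_sub, Ex_const]
      congr 2
      have hPv : Pv g B o T ⊆ E := by
        unfold Pv
        exact (Finset.filter_subset _ _).trans hT
      rw [← Ex_all hPv ρ]
      refine Ex_congr fun U _ => ?_
      by_cases h : Pv g B o T ⊆ U
      · rw [ind_t h, if_pos h]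
      · rw [ind_f h, if_neg h]
    rw [← h2]
    exact Ex_mono hρ0 hρ1 fun U hU => BB_sum E o T U
  -- step 2
  have s2 : ∑ z ∈ E ×ˢ (Finset.univ : Finset Bool),
      Ex E p (fun T => Ex E ρ (fun U => ind (BB g B o T U z.1 z.2))) =
      (p * (1 - ρ) / (1 - p)) * ∑ z ∈ E ×ˢ (Finset.univ : Finset Bool),
        Ex E p (fun T => Ex E ρ (fun U => F z T U)) := by
    rw [Finset.mul_sum]
    refine Finset.sum_congr rfl fun z hz => ?_
    exact BB_prob (Finset.mem_product.1 hz).1 z.2 o p ρ (ne_of_lt hp1)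
  -- step 3: the part with a given `S`
  have s3 : ∀ S ∈ W.powerset.filter (fun S => o ∈ S),
      Ex E p (fun T => ind (SS g B W T = S)) * Φ S ≤
      Ex E p (fun T => ind (SS g B W T = S) * ∑ z ∈ E ×ˢ (Finset.univ : Finset Bool),
        Ex E ρ (fun U => F z T U)) := by
    intro S hS
    rw [Finset.mem_filter, Finset.mem_powerset] at hS
    obtain ⟨hSW, hoS⟩ := hS
    by_cases hSB : ∀ x ∈ S, x ∉ B
    · have hΦS := hΦ S hSW hoS hSB
      set ES := inS g E S with hES
      have hESE : ES ⊆ E := inS_sub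
      set h : Finset ι → ℝ := fun T => ∑ z ∈ bd g E S,
        Ex E ρ (fun U => ind (Cn g ((T ∩ ES) ∩ U) o (g z.1 z.2))) with hh
      have hdep1 : Dep E (E \ ES) (fun T => ind (SS g B W T = S)) := by
        intro T hT
        refine ind_congr ?_
        have : T ∩ (E \ ES) = T \ ES := by
          ext x
          simp only [Finset.mem_inter, Finset.mem_sdiff]
          constructor
          · rintro ⟨h1, h2, h3⟩; exact ⟨h1, h3⟩
          · rintro ⟨h1, h3⟩; exact ⟨h1, hT h1, h3⟩
        rw [this, ← SS_iff]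
      have hdep2 : Dep E ES h := by
        intro T hT
        simp only [hh]
        rw [Finset.inter_assoc, Finset.inter_self]
      have hhE : Ex E p h = ∑ z ∈ bd g E S,
          Ex ES (p * ρ) (fun T => ind (Cn g T o (g z.1 z.2))) := by
        simp only [hh]
        rw [Ex_sum]
        refine Finset.sum_congr rfl fun z _ => ?_
        rw [Ex_dep (K := ES) hESE (fun T hT => by rw [Finset.inter_assoc, Finset.inter_self]),
          ← Ex_thin]
        refine Ex_congr fun T hT => ?_
        rw [Finset.inter_eq_left.2 hT]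
        rw [Ex_dep (K := ES) hESE]
        intro U hU
        have : T ∩ (U ∩ ES) = T ∩ U := by
          ext x
          simp only [Finset.mem_inter]
          constructor
          · rintro ⟨h1, h2, h3⟩; exact ⟨h1, h2⟩
          · rintro ⟨h1, h2⟩; exact ⟨h1, h2, hT h1⟩
        show ind (Cn g (T ∩ U) o (g z.1 z.2)) = ind (Cn g (T ∩ (U ∩ ES)) o (g z.1 z.2))
        rw [this]
      calc Ex E p (fun T => ind (SS g B W T = S)) * Φ S
          ≤ Ex E p (fun T => ind (SS g B W T = S)) * Ex E p h := by
            refine mul_le_mul_of_nonneg_left (by rw [hhE]; exact hΦS) ?_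
            exact Ex_nonneg hp0 hp1.le fun T _ => ind_nn _
        _ = Ex E p (fun T => ind (SS g B W T = S) * h T) := by
            rw [Ex_mul (K := E \ ES) (K' := ES) Finset.sdiff_subset hESE Finset.sdiff_disjoint
              hdep1 hdep2]
        _ ≤ _ := by
            refine Ex_mono hp0 hp1.le fun T hT => ?_
            by_cases hTS : SS g B W T = S
            · rw [ind_t hTS, one_mul, one_mul]
              simp only [hh]
              refine (Finset.sum_le_sum_of_subset_of_nonneg (Finset.filter_subset _ _) ?_).trans'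
                (Finset.sum_le_sum ?_)
              · intro z _ _
                exact Ex_nonneg hρ0 hρ1 fun U _ => ind_nn _
              · intro z hz
                unfold bd at hz
                rw [Finset.mem_filter, Finset.mem_product] at hz
                refine Ex_mono hρ0 hρ1 fun U _ => ind_mono fun hC => ?_
                obtain ⟨⟨hz1, _⟩, hz2, hz3⟩ := hz
                refine ⟨?_, ?_, ?_⟩
                · rw [← hTS, mem_SS] at hz2; exact hz2.2
                · by_contra hcon
                  apply hz3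
                  rw [← hTS, mem_SS]
                  exact ⟨hE z.1 hz1 _, hcon⟩
                · refine Cn.mono ?_ hC
                  intro x hx
                  rw [Finset.mem_inter, Finset.mem_inter] at hx
                  rw [Finset.mem_inter]
                  exact ⟨hx.1.1, hx.2⟩
            · rw [ind_f hTS, zero_mul, zero_mul]
    · push Not at hSB
      obtain ⟨x, hx, hxB⟩ := hSB
      have hz : ∀ T, ind (SS g B W T = S) = 0 := by
        intro T
        refine ind_f fun h => ?_
        rw [← h, mem_SS] at hx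
        exact hx.2 ⟨x, hxB, Cn.rfl'⟩
      simp only [hz, zero_mul]
      rw [Ex_const]; simp
  -- step 4: sum over `S`
  have s4 : Ex E p (fun T => ind (¬ Rc g T B o) * Φ (SS g B W T)) ≤
      ∑ z ∈ E ×ˢ (Finset.univ : Finset Bool), Ex E p (fun T => Ex E ρ (fun U => F z T U)) := by
    have a1 : ∀ (T : Finset ι) (c : Finset V → ℝ),
        ∑ S ∈ W.powerset.filter (fun S => o ∈ S), ind (SS g B W T = S) * c S =
        ind (¬ Rc g T B o) * c (SS g B W T) := by
      intro T c
      by_cases hT : Rc g T B o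
      · rw [ind_f (not_not.2 hT), zero_mul]
        refine Finset.sum_eq_zero fun S hS => ?_
        rw [Finset.mem_filter] at hS
        rw [ind_f, zero_mul]
        rintro rfl
        exact (mem_SS.1 hS.2).2 hT
      · rw [ind_t hT, one_mul, Finset.sum_eq_single (SS g B W T)]
        · rw [ind_t rfl, one_mul]
        · intro S _ hne
          rw [ind_f (fun h => hne h.symm), zero_mul]
        · intro h
          exfalso
          apply h
          rw [Finset.mem_filter, Finset.mem_powerset]
          exact ⟨fun x hx => (mem_SS.1 hx).1, mem_SS.2 ⟨ho, hT⟩⟩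
    calc Ex E p (fun T => ind (¬ Rc g T B o) * Φ (SS g B W T))
        = ∑ S ∈ W.powerset.filter (fun S => o ∈ S), Ex E p (fun T => ind (SS g B W T = S)) * Φ S := by
          simp only [← Ex_mul_right]
          rw [← Ex_sum]
          exact Ex_congr fun T _ => (a1 T Φ).symm
      _ ≤ ∑ S ∈ W.powerset.filter (fun S => o ∈ S),
          Ex E p (fun T => ind (SS g B W T = S) * ∑ z ∈ E ×ˢ (Finset.univ : Finset Bool),
            Ex E ρ (fun U => F z T U)) := Finset.sum_le_sum s3
      _ = Ex E p (fun T => ind (¬ Rc g T B o) * ∑ z ∈ E ×ˢ (Finset.univ : Finset Bool),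
            Ex E ρ (fun U => F z T U)) := by
          rw [← Ex_sum]
          exact Ex_congr fun T _ => a1 T (fun _ => ∑ z ∈ E ×ˢ (Finset.univ : Finset Bool),
            Ex E ρ (fun U => F z T U))
      _ ≤ Ex E p (fun T => ∑ z ∈ E ×ˢ (Finset.univ : Finset Bool), Ex E ρ (fun U => F z T U)) := by
          refine Ex_mono hp0 hp1.le fun T _ => ?_
          have h2 : 0 ≤ ∑ z ∈ E ×ˢ (Finset.univ : Finset Bool), Ex E ρ (fun U => F z T U) :=
            Finset.sum_nonneg fun z _ => Ex_nonneg hρ0 hρ1 fun U _ => ind_nn _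
          have h3 := ind_le1 (¬ Rc g T B o)
          nlinarith
      _ = _ := by rw [Ex_sum]
  calc _ ≤ (p * (1 - ρ) / (1 - p)) * ∑ z ∈ E ×ˢ (Finset.univ : Finset Bool),
        Ex E p (fun T => Ex E ρ (fun U => F z T U)) := mul_le_mul_of_nonneg_left s4 hc
    _ ≤ _ := by rw [← s2]; exact s1

/-- thinning loses at least the pivotal edges -/
lemma thin_le {E : Finset ι} {o : V} {p α : ℝ} (hp0 : 0 ≤ p) (hp1 : p ≤ 1) (hα0 : 0 ≤ α)
    (hα1 : α ≤ 1) :
    Ex E (p * α) (fun T => ind (Rc g T B o)) ≤
      Ex E p (fun T => ind (Rc g T B o) * α ^ (Pv g B o T).card) := by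
  classical
  rw [← Ex_thin]
  refine Ex_mono hp0 hp1 fun T hT => ?_
  by_cases hR : Rc g T B o
  · rw [ind_t hR, one_mul]
    have hPv : Pv g B o T ⊆ E := by
      unfold Pv
      exact (Finset.filter_subset _ _).trans hT
    rw [← Ex_all hPv α]
    refine Ex_mono hα0 hα1 fun U _ => ?_
    by_cases hU : Pv g B o T ⊆ U
    · rw [if_pos hU]; exact ind_le1 _
    · rw [if_neg hU, ind_f]
      intro h
      apply hU
      intro e he
      unfold Pv at he
      rw [Finset.mem_filter] at he
      by_contra heU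
      apply he.2
      refine h.mono ?_
      intro x hx
      rw [Finset.mem_inter] at hx
      rw [Finset.mem_erase]
      refine ⟨?_, hx.1⟩
      rintro rfl
      exact heU hx.2
  · rw [ind_f hR, zero_mul]
    have : Ex E α (fun U => ind (Rc g (T ∩ U) B o)) = Ex E α (fun _ => 0) :=
      Ex_congr fun U _ => ind_f fun h => hR (h.mono Finset.inter_subset_left)
    rw [this, Ex_const]

/-- The main inequality, in terms of arm probabilities at three parameters. -/
theorem core2 {E : Finset ι} {W : Finset V} (hE : ∀ e ∈ E, ∀ s, g e s ∈ W) {o : V} (ho : o ∈ W)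
    {p α : ℝ} (hp0 : 0 ≤ p) (hp1 : p < 1) (hα0 : 0 ≤ α) (hα1 : α ≤ 1) (n : ℕ)
    (Φ : Finset V → ℝ)
    (hΦ : ∀ S ⊆ W, o ∈ S → (∀ x ∈ S, x ∉ B) →
      Φ S ≤ ∑ z ∈ bd g E S, Ex (inS g E S) (p * α ^ n) (fun T => ind (Cn g T o (g z.1 z.2))))
    (hpos : 0 < Ex E p (fun T => ind (Rc g T B o))) :
    (p * (1 - α ^ n) / (1 - p)) * Ex E p (fun T => ind (¬ Rc g T B o) * Φ (SS g B W T)) ≤
      Ex E p (fun T => ind (Rc g T B o)) - Ex E p (fun T => ind (Rc g T B o)) *
        (Ex E (p * α) (fun T => ind (Rc g T B o)) / Ex E p (fun T => ind (Rc g T B o))) ^ n := by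
  have h1 := core hE ho hp0 hp1 (pow_nonneg hα0 n) (pow_le_one₀ hα0 hα1) Φ hΦ
  refine h1.trans ?_
  have h2 : Ex E p (fun T => ind (Rc g T B o) * (1 - (α ^ n) ^ (Pv g B o T).card)) =
      Ex E p (fun T => ind (Rc g T B o)) -
        Ex E p (fun T => ind (Rc g T B o) * (α ^ (Pv g B o T).card) ^ n) := by
    rw [← Ex_sub]
    refine Ex_congr fun T _ => ?_
    rw [← pow_mul, ← pow_mul, mul_comm n]; ring
  rw [h2]
  have h3 := Ex_jensen hp0 hp1.le n (a := fun T => ind (Rc g T B o))
    (f := fun T => α ^ (Pv g B o T).card) (fun T => ind_nn _) (fun T => pow_nonneg hα0 _) hpos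
  have h4 := thin_le (g := g) (B := B) (E := E) (o := o) hp0 hp1.le hα0 hα1
  have h5 : 0 ≤ Ex E (p * α) (fun T => ind (Rc g T B o)) :=
    Ex_nonneg (mul_nonneg hp0 hα0) (mul_le_one₀ hp1.le hα0 hα1) fun T _ => ind_nn _
  have h6 : (Ex E (p * α) (fun T => ind (Rc g T B o)) / Ex E p (fun T => ind (Rc g T B o))) ^ n ≤
      (Ex E p (fun T => ind (Rc g T B o) * α ^ (Pv g B o T).card) /
        Ex E p (fun T => ind (Rc g T B o))) ^ n := by
    refine pow_le_pow_left₀ (div_nonneg h5 hpos.le) ?_ n
    exact div_le_div_of_nonneg_right h4 hpos.le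
  have h7 := mul_le_mul_of_nonneg_left h6 hpos.le
  linarith

end Pool.Agent.Helper430_GC
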