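import Mathlib

/-!
# Expectations over a random finite subset
-/

set_option autoImplicit false
set_option linter.all false

namespace Pool.Agent.Helper430_GC

open Finset

variable {ι : Type*} [DecidableEq ι]

/-- expectation of `f` of the random subset of `E` which keeps each element with probability `p` -/
noncomputable def Ex (E : Finset ι) (p : ℝ) (f : Finset ι → ℝ) : ℝ :=
  ∑ T ∈ E.powerset, p ^ T.card * (1 - p) ^ (E \ T).card * f T

lemma Ex_empty (p : ℝ) (f : Finset ι → ℝ) : Ex ∅ p f = f ∅ := by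
  simp [Ex]

lemma Ex_insert {E : Finset ι} {e : ι} (he : e ∉ E) (p : ℝ) (f : Finset ι → ℝ) :
    Ex (insert e E) p f = p * Ex E p (fun T => f (insert e T)) + (1 - p) * Ex E p f := by
  unfold Ex
  rw [Finset.sum_powerset_insert he, add_comm, Finset.mul_sum, Finset.mul_sum]
  congr 1
  · refine Finset.sum_congr rfl fun T hT => ?_
    have hT' := Finset.mem_powerset.1 hT
    have heT : e ∉ T := fun h => he (hT' h)
    have h2 : (insert e E \ insert e T) = E \ T := by
      ext x
      simp only [Finset.mem_sdiff, Finset.mem_insert]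
      constructor
      · rintro ⟨h | h, h'⟩
        · exact absurd (Or.inl h) h'
        · exact ⟨h, fun h'' => h' (Or.inr h'')⟩
      · rintro ⟨h, h'⟩
        exact ⟨Or.inr h, fun h'' => h''.elim (fun h3 => he (h3 ▸ h)) h'⟩
    rw [h2, Finset.card_insert_of_notMem heT]
    ring
  · refine Finset.sum_congr rfl fun T hT => ?_
    have hT' := Finset.mem_powerset.1 hT
    have heT : e ∉ T := fun h => he (hT' h)
    rw [Finset.insert_sdiff_of_notMem _ heT, Finset.card_insert_of_notMem (by simp [he])]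
    ring

lemma Ex_congr {E : Finset ι} {p : ℝ} {f g : Finset ι → ℝ} (h : ∀ T ⊆ E, f T = g T) :
    Ex E p f = Ex E p g := by
  refine Finset.sum_congr rfl fun T hT => ?_
  rw [h T (Finset.mem_powerset.1 hT)]

lemma Ex_mono {E : Finset ι} {p : ℝ} (h0 : 0 ≤ p) (h1 : p ≤ 1) {f g : Finset ι → ℝ}
    (h : ∀ T ⊆ E, f T ≤ g T) : Ex E p f ≤ Ex E p g := by
  refine Finset.sum_le_sum fun T hT => ?_
  have h2 : 0 ≤ 1 - p := by linarith
  exact mul_le_mul_of_nonneg_left (h T (Finset.mem_powerset.1 hT)) (by positivity)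

lemma Ex_nonneg {E : Finset ι} {p : ℝ} (h0 : 0 ≤ p) (h1 : p ≤ 1) {f : Finset ι → ℝ}
    (h : ∀ T ⊆ E, 0 ≤ f T) : 0 ≤ Ex E p f := by
  refine Finset.sum_nonneg fun T hT => ?_
  have h2 : 0 ≤ 1 - p := by linarith
  exact mul_nonneg (by positivity) (h T (Finset.mem_powerset.1 hT))

lemma Ex_add (E : Finset ι) (p : ℝ) (f g : Finset ι → ℝ) :
    Ex E p (fun T => f T + g T) = Ex E p f + Ex E p g := by
  unfold Ex
  rw [← Finset.sum_add_distrib]
  exact Finset.sum_congr rfl fun T _ => by ring

lemma Ex_sub (E : Finset ι) (p : ℝ) (f g : Finset ι → ℝ) :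
    Ex E p (fun T => f T - g T) = Ex E p f - Ex E p g := by
  unfold Ex
  rw [← Finset.sum_sub_distrib]
  exact Finset.sum_congr rfl fun T _ => by ring

lemma Ex_mul_left (E : Finset ι) (p c : ℝ) (f : Finset ι → ℝ) :
    Ex E p (fun T => c * f T) = c * Ex E p f := by
  unfold Ex
  rw [Finset.mul_sum]
  exact Finset.sum_congr rfl fun T _ => by ring

lemma Ex_mul_right (E : Finset ι) (p c : ℝ) (f : Finset ι → ℝ) :
    Ex E p (fun T => f T * c) = Ex E p f * c := by
  unfold Ex
  rw [Finset.sum_mul]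
  exact Finset.sum_congr rfl fun T _ => by ring

lemma Ex_sum {κ : Type*} (s : Finset κ) (E : Finset ι) (p : ℝ) (f : κ → Finset ι → ℝ) :
    Ex E p (fun T => ∑ k ∈ s, f k T) = ∑ k ∈ s, Ex E p (f k) := by
  unfold Ex
  rw [Finset.sum_comm]
  exact Finset.sum_congr rfl fun T _ => by rw [Finset.mul_sum]

lemma Ex_const (E : Finset ι) (p c : ℝ) : Ex E p (fun _ => c) = c := by
  induction E using Finset.induction_on with
  | empty => rw [Ex_empty]
  | insert e E he ih => rw [Ex_insert he, ih]; ring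

lemma Ex_le_one {E : Finset ι} {p : ℝ} (h0 : 0 ≤ p) (h1 : p ≤ 1) {f : Finset ι → ℝ}
    (h : ∀ T ⊆ E, f T ≤ 1) : Ex E p f ≤ 1 := by
  have := Ex_mono h0 h1 (g := fun _ => (1 : ℝ)) h
  rwa [Ex_const] at this

/-- splitting of the expectation -/
lemma Ex_union {E E' : Finset ι} (h : Disjoint E E') (p : ℝ) (f : Finset ι → ℝ) :
    Ex (E ∪ E') p f = Ex E p (fun T => Ex E' p (fun T' => f (T ∪ T'))) := by
  induction E using Finset.induction_on generalizing f with
  | empty => simp [Ex_empty]
  | insert e E he ih =>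
    rw [Finset.disjoint_insert_left] at h
    have hne : e ∉ E ∪ E' := by
      rw [Finset.mem_union]; push Not; exact ⟨he, h.1⟩
    rw [Finset.insert_union, Ex_insert hne, ih h.2, ih h.2, Ex_insert he]
    congr 1
    refine congrArg _ (Ex_congr fun T _ => Ex_congr fun T' _ => ?_)
    rw [Finset.insert_union]

/-- dependence on `K` only -/
def Dep (E K : Finset ι) (f : Finset ι → ℝ) : Prop := ∀ T ⊆ E, f T = f (T ∩ K)

lemma Ex_dep {E K : Finset ι} (hK : K ⊆ E) {p : ℝ} {f : Finset ι → ℝ} (h : Dep E K f) :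
    Ex E p f = Ex K p f := by
  have h1 : E = K ∪ (E \ K) := (Finset.union_sdiff_of_subset hK).symm
  have h2 : Disjoint K (E \ K) := Finset.disjoint_sdiff
  conv_lhs => rw [h1]
  rw [Ex_union h2]
  refine Ex_congr fun T hT => ?_
  have h3 : Ex (E \ K) p (fun T' => f (T ∪ T')) = Ex (E \ K) p (fun _ => f T) := by
    refine Ex_congr fun T' hT' => ?_
    rw [h (T ∪ T') (Finset.union_subset (hT.trans hK) (hT'.trans Finset.sdiff_subset))]
    congr 1
    ext x
    simp only [Finset.mem_inter, Finset.mem_union]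
    constructor
    · rintro ⟨h4 | h4, h5⟩
      · exact h4
      · exact absurd h5 (Finset.mem_sdiff.1 (hT' h4)).2
    · intro h4
      exact ⟨Or.inl h4, hT h4⟩
  rw [h3, Ex_const]

/-- independence -/
lemma Ex_mul {E K K' : Finset ι} (hK : K ⊆ E) (hK' : K' ⊆ E) (hd : Disjoint K K') {p : ℝ}
    {f g : Finset ι → ℝ} (hf : Dep E K f) (hg : Dep E K' g) :
    Ex E p (fun T => f T * g T) = Ex E p f * Ex E p g := by
  have h1 : E = K ∪ (E \ K) := (Finset.union_sdiff_of_subset hK).symm
  have h2 : Disjoint K (E \ K) := Finset.disjoint_sdiff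
  have h3 : K' ⊆ E \ K := fun x hx => Finset.mem_sdiff.2
    ⟨hK' hx, fun h => (Finset.disjoint_left.1 hd h) hx⟩
  have hgE : Ex E p g = Ex (E \ K) p g := by
    rw [Ex_dep hK' hg, Ex_dep h3 (fun T hT => hg T (hT.trans Finset.sdiff_subset))]
  rw [Ex_dep hK hf, hgE]
  conv_lhs => rw [h1]
  rw [Ex_union h2]
  rw [← Ex_mul_right]
  refine Ex_congr fun T hT => ?_
  rw [← Ex_mul_left]
  refine Ex_congr fun T' hT' => ?_
  have h4 : T ∪ T' ⊆ E := Finset.union_subset (hT.trans hK) (hT'.trans Finset.sdiff_subset)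
  have h5 : f (T ∪ T') = f T := by
    rw [hf _ h4]
    congr 1
    ext x
    simp only [Finset.mem_inter, Finset.mem_union]
    constructor
    · rintro ⟨h6 | h6, h7⟩
      · exact h6
      · exact absurd h7 (Finset.mem_sdiff.1 (hT' h6)).2
    · intro h6
      exact ⟨Or.inl h6, hT h6⟩
  have h6 : g (T ∪ T') = g T' := by
    rw [hg _ h4, hg T' (hT'.trans Finset.sdiff_subset)]
    congr 1
    ext x
    simp only [Finset.mem_inter, Finset.mem_union]
    constructor
    · rintro ⟨h6 | h6, h7⟩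
      · exact absurd h7 (Finset.disjoint_left.1 hd (hT h6))
      · exact ⟨h6, h7⟩
    · rintro ⟨h6, h7⟩
      exact ⟨Or.inr h6, h7⟩
  rw [h5, h6]

/-- thinning -/
lemma Ex_thin (E : Finset ι) (p ρ : ℝ) (g : Finset ι → ℝ) :
    Ex E p (fun T => Ex E ρ (fun U => g (T ∩ U))) = Ex E (p * ρ) g := by
  induction E using Finset.induction_on generalizing g with
  | empty => simp [Ex_empty]
  | insert e E he ih =>
    rw [Ex_insert he, Ex_insert he]
    have h1 : Ex E p (fun T => Ex (insert e E) ρ (fun U => g (insert e T ∩ U))) =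
        ρ * Ex E (p * ρ) (fun T => g (insert e T)) + (1 - ρ) * Ex E (p * ρ) g := by
      rw [← ih, ← ih, ← Ex_mul_left, ← Ex_mul_left, ← Ex_add]
      refine Ex_congr fun T hT => ?_
      rw [Ex_insert he]
      congr 1
      · congr 1
        refine Ex_congr fun U hU => ?_
        rw [← Finset.insert_inter_distrib]
      · congr 1
        refine Ex_congr fun U hU => ?_
        rw [Finset.insert_inter_of_notMem (fun h => he (hU h))]
    have h2 : Ex E p (fun T => Ex (insert e E) ρ (fun U => g (T ∩ U))) = Ex E (p * ρ) g := by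
      rw [← ih]
      refine Ex_congr fun T hT => ?_
      rw [Ex_insert he]
      have : Ex E ρ (fun U => g (T ∩ insert e U)) = Ex E ρ (fun U => g (T ∩ U)) := by
        refine Ex_congr fun U hU => ?_
        rw [Finset.inter_insert_of_notMem (fun h => he (hT h))]
      rw [this]; ring
    rw [h1, h2]; ring

/-- probability that all elements of `K` are kept -/
lemma Ex_all {E K : Finset ι} (hK : K ⊆ E) (ρ : ℝ) :
    Ex E ρ (fun U => if K ⊆ U then 1 else 0) = ρ ^ K.card := by
  have h0 : Dep E K (fun U => if K ⊆ U then (1 : ℝ) else 0) := by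
    intro T hT
    have : K ⊆ T ↔ K ⊆ T ∩ K := by
      rw [Finset.subset_inter_iff]; simp
    simp only [this]
  rw [Ex_dep hK h0]
  clear h0 hK
  unfold Ex
  rw [Finset.sum_eq_single K]
  · simp
  · intro T hT hne
    have h1 : ¬ K ⊆ T := fun h => hne (Finset.Subset.antisymm (Finset.mem_powerset.1 hT) h)
    simp [h1]
  · intro h; simp at h

lemma Ex_comm (E E' : Finset ι) (p ρ : ℝ) (f : Finset ι → Finset ι → ℝ) :
    Ex E p (fun T => Ex E' ρ (fun U => f T U)) = Ex E' ρ (fun U => Ex E p (fun T => f T U)) := by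
  unfold Ex
  simp only [Finset.mul_sum]
  rw [Finset.sum_comm]
  exact Finset.sum_congr rfl fun T _ => Finset.sum_congr rfl fun U _ => by ring

/-- relabelling -/
lemma Ex_image {κ : Type*} [DecidableEq κ] (E : Finset ι) (j : ι → κ) (hj : Function.Injective j)
    (p : ℝ) (f : Finset κ → ℝ) :
    Ex (E.image j) p f = Ex E p (fun T => f (T.image j)) := by
  induction E using Finset.induction_on generalizing f with
  | empty => simp [Ex_empty]
  | insert e E he ih =>
    have h : j e ∉ E.image j := by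
      intro h
      rw [Finset.mem_image] at h
      obtain ⟨x, hx, hxe⟩ := h
      exact he (hj hxe ▸ hx)
    rw [Finset.image_insert, Ex_insert h, ih, ih, Ex_insert he]
    congr 1
    congr 1
    refine Ex_congr fun T _ => ?_
    rw [Finset.image_insert]

/-- monotonicity in the parameter -/
lemma Ex_param {E : Finset ι} {q p : ℝ} (h0 : 0 ≤ q) (hqp : q ≤ p) (h1 : p ≤ 1)
    {f : Finset ι → ℝ} (hf : ∀ T U, T ⊆ U → f T ≤ f U) : Ex E q f ≤ Ex E p f := by
  rcases eq_or_lt_of_le (h0.trans hqp) with h | hp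
  · have : q = p := le_antisymm hqp (by rw [← h]; exact h0)
    rw [this]
  have hq : q = p * (q / p) := by field_simp
  have hr0 : 0 ≤ q / p := div_nonneg h0 hp.le
  have hr1 : q / p ≤ 1 := (div_le_one hp).2 hqp
  rw [hq, ← Ex_thin]
  refine Ex_mono hp.le h1 fun T _ => ?_
  have h2 : Ex E (q / p) (fun U => f (T ∩ U)) ≤ Ex E (q / p) (fun _ => f T) :=
    Ex_mono hr0 hr1 fun U _ => hf _ _ Finset.inter_subset_left
  rwa [Ex_const] at h2

/-- Jensen for powers -/
lemma Ex_jensen {E : Finset ι} {p : ℝ} (h0 : 0 ≤ p) (h1 : p ≤ 1) (n : ℕ)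
    {a f : Finset ι → ℝ} (ha : ∀ T, 0 ≤ a T) (hf : ∀ T, 0 ≤ f T) (hpos : 0 < Ex E p a) :
    Ex E p a * (Ex E p (fun T => a T * f T) / Ex E p a) ^ n ≤ Ex E p (fun T => a T * f T ^ n) := by
  set A := Ex E p a with hA
  have h2 : 0 ≤ 1 - p := by linarith
  have hw : ∀ T ∈ E.powerset, 0 ≤ (p ^ T.card * (1 - p) ^ (E \ T).card * a T) / A := by
    intro T _
    have := ha T
    positivity
  have hw1 : ∑ T ∈ E.powerset, (p ^ T.card * (1 - p) ^ (E \ T).card * a T) / A = 1 := by
    rw [← Finset.sum_div]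
    exact div_self hpos.ne'
  have key := Real.pow_arith_mean_le_arith_mean_pow E.powerset
    (fun T => (p ^ T.card * (1 - p) ^ (E \ T).card * a T) / A) f hw hw1 (fun T _ => hf T) n
  have e1 : ∑ T ∈ E.powerset, (p ^ T.card * (1 - p) ^ (E \ T).card * a T) / A * f T =
      Ex E p (fun T => a T * f T) / A := by
    unfold Ex
    rw [Finset.sum_div]
    exact Finset.sum_congr rfl fun T _ => by ring
  have e2 : ∑ T ∈ E.powerset, (p ^ T.card * (1 - p) ^ (E \ T).card * a T) / A * f T ^ n =
      Ex E p (fun T => a T * f T ^ n) / A := by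
    unfold Ex
    rw [Finset.sum_div]
    exact Finset.sum_congr rfl fun T _ => by ring
  rw [e1, e2] at key
  calc A * (Ex E p (fun T => a T * f T) / A) ^ n ≤ A * (Ex E p (fun T => a T * f T ^ n) / A) :=
        mul_le_mul_of_nonneg_left key hpos.le
    _ = Ex E p (fun T => a T * f T ^ n) := by field_simp

end Pool.Agent.Helper430_GC
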