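import Pool.Agent.Helper430_GC.Core

/-!
# The inequality of Simon and Lieb for finite sets
-/

set_option autoImplicit false
set_option linter.all false

namespace Pool.Agent.Helper430_GC

open Finset

variable {ι : Type*} [DecidableEq ι] {V : Type*} [DecidableEq V]
variable {g : ι → Bool → V} {B : Set V}

lemma Ex_mem {E : Finset ι} {e : ι} (he : e ∈ E) (q : ℝ) :
    Ex E q (fun T => ind (e ∈ T)) = q := by
  have h := Ex_all (E := E) (K := {e}) (by simpa using he) q
  rw [Finset.card_singleton, pow_one] at h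
  conv_rhs => rw [← h]
  refine Ex_congr fun T _ => ?_
  by_cases h1 : e ∈ T
  · rw [ind_t h1, if_pos (by simpa using h1)]
  · rw [ind_f h1, if_neg (by simpa using h1)]

/-- the cluster of `o` inside `S` -/
noncomputable def Cl (g : ι → Bool → V) (E : Finset ι) (S : Finset V) (o : V) (T : Finset ι) :
    Finset V :=
  open scoped Classical in S.filter (fun v => Cn g (T ∩ inS g E S) o v)

lemma mem_Cl {E : Finset ι} {S : Finset V} {o v : V} {T : Finset ι} :
    v ∈ Cl g E S o T ↔ v ∈ S ∧ Cn g (T ∩ inS g E S) o v := by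
  classical
  unfold Cl
  rw [Finset.mem_filter]

/-- edges touching `C` -/
def tc (g : ι → Bool → V) (E : Finset ι) (C : Finset V) : Finset ι :=
  E.filter (fun e => ∃ s, g e s ∈ C)

lemma inS_mem {E : Finset ι} {S : Finset V} {e : ι} {s : Bool} (he : e ∈ E) (h1 : g e s ∈ S)
    (h2 : g e (!s) ∈ S) : e ∈ inS g E S := by
  unfold inS
  rw [Finset.mem_filter]
  refine ⟨he, fun t => ?_⟩
  by_cases ht : t = s
  · rw [ht]; exact h1
  · have : t = !s := by cases t <;> cases s <;> simp_all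
    rw [this]; exact h2

lemma Cl_sub {E : Finset ι} {S C : Finset V} {o : V} (ho : o ∈ S) {T : Finset ι} (hT : T ⊆ E)
    (hC : ∀ x, x ∈ S → Cn g (T ∩ (inS g E S ∩ tc g E C)) o x → x ∈ C) {v : V}
    (h : Cn g (T ∩ inS g E S) o v) : Cn g (T ∩ (inS g E S ∩ tc g E C)) o v ∧ v ∈ S := by
  induction h with
  | refl => exact ⟨Cn.rfl', ho⟩
  | @tail v w _ h1 ih =>
    obtain ⟨f, hf, s, hs1, hs2⟩ := h1
    rw [Finset.mem_inter] at hf
    have hvC := hC v ih.2 ih.1
    have hf2 : f ∈ tc g E C := by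
      unfold tc
      rw [Finset.mem_filter]
      exact ⟨hT hf.1, s, by rw [hs1]; exact hvC⟩
    refine ⟨ih.1.trans (Relation.ReflTransGen.single ⟨f, ?_, s, hs1, hs2⟩), ?_⟩
    · rw [Finset.mem_inter, Finset.mem_inter]
      exact ⟨hf.1, hf.2, hf2⟩
    · rw [← hs2]
      exact (Finset.mem_filter.1 hf.2).2 _

lemma Cl_iff {E : Finset ι} {S C : Finset V} {o : V} (ho : o ∈ S) {T : Finset ι} (hT : T ⊆ E) :
    Cl g E S o T = C ↔ Cl g E S o (T ∩ (inS g E S ∩ tc g E C)) = C := by
  have e1 : (T ∩ (inS g E S ∩ tc g E C)) ∩ inS g E S = T ∩ (inS g E S ∩ tc g E C) := by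
    ext x
    simp only [Finset.mem_inter]
    tauto
  have key : (∀ x, x ∈ S → Cn g (T ∩ (inS g E S ∩ tc g E C)) o x → x ∈ C) →
      Cl g E S o T = Cl g E S o (T ∩ (inS g E S ∩ tc g E C)) := by
    intro h
    ext x
    rw [mem_Cl, mem_Cl, e1]
    constructor
    · rintro ⟨h1, h2⟩
      exact ⟨h1, (Cl_sub ho hT h h2).1⟩
    · rintro ⟨h1, h2⟩
      refine ⟨h1, h2.mono ?_⟩
      exact Finset.inter_subset_inter_left Finset.inter_subset_left
  constructor
  · intro h
    rw [← key ?_]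
    · exact h
    · intro x hx h'
      rw [← h, mem_Cl]
      exact ⟨hx, h'.mono (Finset.inter_subset_inter_left Finset.inter_subset_left)⟩
  · intro h
    rw [key ?_]
    · exact h
    · intro x hx h'
      rw [← h, mem_Cl, e1]
      exact ⟨hx, h'⟩

/-- the last exit from the cluster of `o` inside `S` -/
lemma exit_edge {E : Finset ι} {S : Finset V} {o : V} (hSB : ∀ x ∈ S, x ∉ B) {T : Finset ι}
    (hT : T ⊆ E) {v : V} (h : Rc g T B v) :
    (Rc g (T \ tc g E (Cl g E S o T)) B v ∧ v ∉ Cl g E S o T) ∨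
    ∃ z ∈ bd g E S, g z.1 z.2 ∈ Cl g E S o T ∧ z.1 ∈ T ∧
      Rc g (T \ tc g E (Cl g E S o T)) B (g z.1 (!z.2)) := by
  obtain ⟨y, hy, h⟩ := h
  induction h using Relation.ReflTransGen.head_induction_on with
  | refl =>
    left
    refine ⟨⟨y, hy, Cn.rfl'⟩, fun h => hSB y (mem_Cl.1 h).1 hy⟩
  | @head v w h1 _ ih =>
    rcases ih with ih | ih
    · obtain ⟨f, hf, s, hs1, hs2⟩ := h1
      by_cases hv : v ∈ Cl g E S o T
      · right
        refine ⟨(f, s), ?_, by rw [hs1]; exact hv, hf, by rw [hs2]; exact ih.1⟩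
        unfold bd
        rw [Finset.mem_filter, Finset.mem_product]
        refine ⟨⟨hT hf, Finset.mem_univ _⟩, by rw [hs1]; exact (mem_Cl.1 hv).1, fun hw => ?_⟩
        apply ih.2
        simp only at hw
        rw [mem_Cl, ← hs2]
        refine ⟨hw, (mem_Cl.1 hv).2.trans (Relation.ReflTransGen.single ⟨f, ?_, s, hs1, rfl⟩)⟩
        rw [Finset.mem_inter]
        exact ⟨hf, inS_mem (hT hf) (by rw [hs1]; exact (mem_Cl.1 hv).1) hw⟩
      · left
        refine ⟨?_, hv⟩
        have hf2 : f ∉ tc g E (Cl g E S o T) := by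
          intro h
          obtain ⟨_, t, ht⟩ := Finset.mem_filter.1 h
          by_cases hts : t = s
          · rw [hts, hs1] at ht; exact hv ht
          · have : t = !s := by cases t <;> cases s <;> simp_all
            rw [this, hs2] at ht; exact ih.2 ht
        have h2 := Cn.edge (g := g) (T := T \ tc g E (Cl g E S o T))
          (Finset.mem_sdiff.2 ⟨hf, hf2⟩) s
        rw [hs1, hs2] at h2
        exact Rc.of h2 ih.1
    · exact Or.inr ih

/-- The inequality of Simon and Lieb. -/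
theorem simon {E : Finset ι} {S : Finset V} {o : V} (hSB : ∀ x ∈ S, x ∉ B) (ho : o ∈ S)
    {q : ℝ} (h0 : 0 ≤ q) (h1 : q ≤ 1) :
    Ex E q (fun T => ind (Rc g T B o)) ≤
      ∑ z ∈ bd g E S, Ex (inS g E S) q (fun T => ind (Cn g T o (g z.1 z.2))) *
        (q * Ex E q (fun T => ind (Rc g T B (g z.1 (!z.2))))) := by
  classical
  -- pointwise
  have p1 : ∀ T ⊆ E, ind (Rc g T B o) ≤ ∑ C ∈ S.powerset, ∑ z ∈ bd g E S,
      ind (g z.1 z.2 ∈ C) * (ind (Cl g E S o T = C) *
        (ind (z.1 ∈ T) * ind (Rc g (T \ tc g E C) B (g z.1 (!z.2))))) := by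
    intro T hT
    have hnn : ∀ C ∈ S.powerset, ∀ z ∈ bd g E S, 0 ≤
      ind (g z.1 z.2 ∈ C) * (ind (Cl g E S o T = C) *
        (ind (z.1 ∈ T) * ind (Rc g (T \ tc g E C) B (g z.1 (!z.2))))) := by
      intro C _ z _
      have a := ind_nn (g z.1 z.2 ∈ C)
      have b := ind_nn (Cl g E S o T = C)
      have c := ind_nn (z.1 ∈ T)
      have d := ind_nn (Rc g (T \ tc g E C) B (g z.1 (!z.2)))
      positivity
    by_cases hR : Rc g T B o
    · rw [ind_t hR]
      rcases exit_edge (o := o) hSB hT hR with h | ⟨z, hz, hz1, hz2, hz3⟩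
      · exact absurd (mem_Cl.2 ⟨ho, Cn.rfl'⟩) h.2
      · have hC : Cl g E S o T ∈ S.powerset :=
          Finset.mem_powerset.2 fun x hx => (mem_Cl.1 hx).1
        refine (Finset.single_le_sum (f := fun C => ∑ z ∈ bd g E S,
          ind (g z.1 z.2 ∈ C) * (ind (Cl g E S o T = C) *
            (ind (z.1 ∈ T) * ind (Rc g (T \ tc g E C) B (g z.1 (!z.2))))))
          (fun C hC => Finset.sum_nonneg (hnn C hC)) hC).trans' ?_
        refine (Finset.single_le_sum (f := fun z : ι × Bool =>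
          ind (g z.1 z.2 ∈ Cl g E S o T) * (ind (Cl g E S o T = Cl g E S o T) *
            (ind (z.1 ∈ T) * ind (Rc g (T \ tc g E (Cl g E S o T)) B (g z.1 (!z.2))))))
          (hnn _ hC) hz).trans' ?_
        simp only
        rw [ind_t hz1, ind_t trivial, ind_t hz2, ind_t hz3]; norm_num
    · rw [ind_f hR]
      exact Finset.sum_nonneg fun C hC => Finset.sum_nonneg (hnn C hC)
  -- independence
  have p2 : ∀ C ∈ S.powerset, ∀ z ∈ bd g E S,
      Ex E q (fun T => ind (g z.1 z.2 ∈ C) * (ind (Cl g E S o T = C) *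
        (ind (z.1 ∈ T) * ind (Rc g (T \ tc g E C) B (g z.1 (!z.2)))))) ≤
      Ex E q (fun T => ind (g z.1 z.2 ∈ C) * ind (Cl g E S o T = C)) *
        (q * Ex E q (fun T => ind (Rc g T B (g z.1 (!z.2))))) := by
    intro C hC z hz
    unfold bd at hz
    rw [Finset.mem_filter, Finset.mem_product] at hz
    obtain ⟨⟨hzE, _⟩, hz1, hz2⟩ := hz
    by_cases hzC : g z.1 z.2 ∈ C
    · simp only [ind_t hzC, one_mul]
      have hztc : z.1 ∈ tc g E C := Finset.mem_filter.2 ⟨hzE, _, hzC⟩
      have hzin : z.1 ∉ inS g E S := fun h => hz2 ((Finset.mem_filter.1 h).2 _)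
      have d1 : Dep E (inS g E S ∩ tc g E C) (fun T => ind (Cl g E S o T = C)) := by
        intro T hT
        exact ind_congr (Cl_iff ho hT)
      have d2 : Dep E {z.1} (fun T => ind (z.1 ∈ T)) := by
        intro T hT
        exact ind_congr (by simp)
      have e3 : ∀ T ⊆ E, T ∩ (E \ tc g E C) = T \ tc g E C := by
        intro T hT
        ext x
        simp only [Finset.mem_inter, Finset.mem_sdiff]
        constructor
        · rintro ⟨h1, h2, h3⟩; exact ⟨h1, h3⟩
        · rintro ⟨h1, h3⟩; exact ⟨h1, hT h1, h3⟩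
      have d3 : Dep E (E \ tc g E C) (fun T => ind (Rc g (T \ tc g E C) B (g z.1 (!z.2)))) := by
        intro T hT
        show ind (Rc g (T \ tc g E C) B (g z.1 (!z.2))) =
          ind (Rc g ((T ∩ (E \ tc g E C)) \ tc g E C) B (g z.1 (!z.2)))
        rw [e3 T hT, Finset.sdiff_idem]
      have d23 : Dep E ({z.1} ∪ (E \ tc g E C)) (fun T => ind (z.1 ∈ T) *
          ind (Rc g (T \ tc g E C) B (g z.1 (!z.2)))) := by
        intro T hT
        have a1 : z.1 ∈ T ↔ z.1 ∈ T ∩ ({z.1} ∪ (E \ tc g E C)) := by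
          simp
        have a2 : (T ∩ ({z.1} ∪ (E \ tc g E C))) \ tc g E C = T \ tc g E C := by
          ext x
          simp only [Finset.mem_inter, Finset.mem_sdiff, Finset.mem_union, Finset.mem_singleton]
          constructor
          · rintro ⟨⟨h1, h2⟩, h3⟩; exact ⟨h1, h3⟩
          · rintro ⟨h1, h3⟩; exact ⟨⟨h1, Or.inr ⟨hT h1, h3⟩⟩, h3⟩
        show ind (z.1 ∈ T) * ind (Rc g (T \ tc g E C) B (g z.1 (!z.2))) =
          ind (z.1 ∈ T ∩ ({z.1} ∪ (E \ tc g E C))) *
            ind (Rc g ((T ∩ ({z.1} ∪ (E \ tc g E C))) \ tc g E C) B (g z.1 (!z.2)))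
        rw [a2, ind_congr a1]
      have k1 : inS g E S ∩ tc g E C ⊆ E := Finset.inter_subset_left.trans inS_sub
      have k2 : ({z.1} : Finset ι) ⊆ E := by simpa using hzE
      have k3 : E \ tc g E C ⊆ E := Finset.sdiff_subset
      have j1 : Disjoint (inS g E S ∩ tc g E C) ({z.1} ∪ (E \ tc g E C)) := by
        rw [Finset.disjoint_left]
        intro x hx hx'
        rw [Finset.mem_inter] at hx
        rw [Finset.mem_union, Finset.mem_singleton, Finset.mem_sdiff] at hx'
        rcases hx' with rfl | hx'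
        · exact hzin hx.1
        · exact hx'.2 hx.2
      have j2 : Disjoint ({z.1} : Finset ι) (E \ tc g E C) := by
        rw [Finset.disjoint_singleton_left, Finset.mem_sdiff]
        exact fun h => h.2 hztc
      rw [Ex_mul k1 (Finset.union_subset k2 k3) j1 d1 d23, Ex_mul k2 k3 j2 d2 d3, Ex_mem hzE]
      refine mul_le_mul_of_nonneg_left ?_ (Ex_nonneg h0 h1 fun T _ => ind_nn _)
      refine mul_le_mul_of_nonneg_left ?_ h0
      exact Ex_mono h0 h1 fun T _ => ind_mono fun h => h.mono Finset.sdiff_subset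
    · simp only [ind_f hzC, zero_mul]
      rw [Ex_const]; simp
  -- summation over the clusters
  have p3 : ∀ z ∈ bd g E S,
      ∑ C ∈ S.powerset, Ex E q (fun T => ind (g z.1 z.2 ∈ C) * ind (Cl g E S o T = C)) =
        Ex (inS g E S) q (fun T => ind (Cn g T o (g z.1 z.2))) := by
    intro z hz
    unfold bd at hz
    rw [Finset.mem_filter, Finset.mem_product] at hz
    obtain ⟨⟨hzE, _⟩, hz1, hz2⟩ := hz
    rw [← Ex_sum]
    have a1 : Ex E q (fun T => ∑ C ∈ S.powerset, ind (g z.1 z.2 ∈ C) * ind (Cl g E S o T = C)) =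
        Ex E q (fun T => ind (Cn g (T ∩ inS g E S) o (g z.1 z.2))) := by
      refine Ex_congr fun T hT => ?_
      rw [Finset.sum_eq_single (Cl g E S o T)]
      · rw [ind_t rfl, mul_one]
        refine ind_congr ?_
        rw [mem_Cl]
        exact ⟨fun h => h.2, fun h => ⟨hz1, h⟩⟩
      · intro C _ hne
        rw [ind_f (P := Cl g E S o T = C) (fun h => hne h.symm), mul_zero]
      · intro h
        exact absurd (Finset.mem_powerset.2 fun x hx => (mem_Cl.1 hx).1) h
    rw [a1, Ex_dep (K := inS g E S) inS_sub (fun T hT => by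
      rw [Finset.inter_assoc, Finset.inter_self])]
    refine Ex_congr fun T hT => ?_
    rw [Finset.inter_eq_left.2 hT]
  calc Ex E q (fun T => ind (Rc g T B o))
      ≤ Ex E q (fun T => ∑ C ∈ S.powerset, ∑ z ∈ bd g E S,
          ind (g z.1 z.2 ∈ C) * (ind (Cl g E S o T = C) *
            (ind (z.1 ∈ T) * ind (Rc g (T \ tc g E C) B (g z.1 (!z.2)))))) := Ex_mono h0 h1 p1
    _ = ∑ C ∈ S.powerset, ∑ z ∈ bd g E S, Ex E q (fun T =>
          ind (g z.1 z.2 ∈ C) * (ind (Cl g E S o T = C) *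
            (ind (z.1 ∈ T) * ind (Rc g (T \ tc g E C) B (g z.1 (!z.2)))))) := by
        rw [Ex_sum]
        exact Finset.sum_congr rfl fun C _ => by rw [Ex_sum]
    _ ≤ ∑ C ∈ S.powerset, ∑ z ∈ bd g E S,
          Ex E q (fun T => ind (g z.1 z.2 ∈ C) * ind (Cl g E S o T = C)) *
            (q * Ex E q (fun T => ind (Rc g T B (g z.1 (!z.2))))) :=
        Finset.sum_le_sum fun C hC => Finset.sum_le_sum fun z hz => p2 C hC z hz
    _ = ∑ z ∈ bd g E S, (∑ C ∈ S.powerset,
          Ex E q (fun T => ind (g z.1 z.2 ∈ C) * ind (Cl g E S o T = C))) *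
            (q * Ex E q (fun T => ind (Rc g T B (g z.1 (!z.2))))) := by
        rw [Finset.sum_comm]
        exact Finset.sum_congr rfl fun z _ => by rw [Finset.sum_mul]
    _ = _ := Finset.sum_congr rfl fun z hz => by rw [p3 z hz]

end Pool.Agent.Helper430_GC
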