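import Pool.Agent.Helper430_GC.Box

/-!
# From product measures to finite expectations
-/

set_option autoImplicit false
set_option linter.all false

namespace Pool.Agent.Helper430_GC

open Finset Filter Topology MeasureTheory

/-- one bond -/
noncomputable def bn (p : ℝ) : Measure Bool :=
  Real.toNNReal p • Measure.dirac true + Real.toNNReal (1 - p) • Measure.dirac false

instance (p : ℝ) : IsFiniteMeasure (bn p) := by unfold bn; infer_instance

lemma bn_t {p : ℝ} (h0 : 0 ≤ p) : (bn p {true}).toReal = p := by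
  simp [bn, Measure.add_apply, Measure.smul_apply, h0]

lemma bn_f {p : ℝ} (h1 : p ≤ 1) : (bn p {false}).toReal = 1 - p := by
  simp [bn, Measure.add_apply, Measure.smul_apply, h1]

/-- configurations and subsets -/
def cfg {κ : Type*} [DecidableEq κ] (T : Finset κ) : κ → Bool := fun e => decide (e ∈ T)

lemma pi_Ex {κ : Type*} [Fintype κ] [DecidableEq κ] {p : ℝ} (h0 : 0 ≤ p) (h1 : p ≤ 1)
    (A : Set (κ → Bool)) :
    ((Measure.pi (fun _ : κ => bn p)) A).toReal =
      Ex Finset.univ p (fun T => ind (cfg T ∈ A)) := by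
  classical
  have hA : A = ((Finset.univ.filter (fun ω => ω ∈ A) : Finset (κ → Bool)) : Set (κ → Bool)) := by
    ext ω; simp
  have e1 : (Measure.pi (fun _ : κ => bn p)) A =
      ∑ ω ∈ Finset.univ.filter (fun ω => ω ∈ A), (Measure.pi (fun _ : κ => bn p)) {ω} := by
    rw [sum_measure_singleton, ← hA]
  rw [e1, ENNReal.toReal_sum (fun ω _ => measure_ne_top _ _)]
  have e2 : ∀ ω : κ → Bool, ((Measure.pi (fun _ : κ => bn p)) {ω}).toReal =
      ∏ e, (if ω e = true then p else 1 - p) := by
    intro ω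
    rw [Measure.pi_singleton, ENNReal.toReal_prod]
    refine Finset.prod_congr rfl fun e _ => ?_
    cases h : ω e
    · rw [bn_f h1]; simp
    · rw [bn_t h0]; simp
  simp only [e2]
  rw [Finset.sum_filter]
  unfold Ex
  rw [Finset.powerset_univ]
  symm
  refine Finset.sum_bij (fun T _ => cfg T) (fun T _ => Finset.mem_univ _) ?_ ?_ ?_
  · intro T _ T' _ h
    ext e
    have := congrFun h e
    simpa [cfg] using this
  · intro ω _
    refine ⟨Finset.univ.filter (fun e => ω e = true), Finset.mem_univ _, ?_⟩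
    funext e
    simp [cfg]
  · intro T _
    have e3 : ∏ e, (if cfg T e = true then p else 1 - p) =
        p ^ T.card * (1 - p) ^ (Finset.univ \ T).card := by
      rw [Finset.prod_ite, Finset.prod_const, Finset.prod_const]
      congr 2
      · congr 1; ext e; simp [cfg]
      · congr 1; ext e; simp [cfg]
    rw [e3]
    beta_reduce
    by_cases h : cfg T ∈ A
    · rw [ind_t h, if_pos h, mul_one]
    · rw [ind_f h, if_neg h, mul_zero]

variable {d : ℕ}

/-- the box graph of the frozen statement -/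
def Gb (d N : ℕ) (ω : (Fin d → Fin (2 * N + 1)) × Fin d → Bool) :
    SimpleGraph (Fin d → Fin (2 * N + 1)) :=
  SimpleGraph.fromRel (fun a b : Fin d → Fin (2 * N + 1) =>
    ∃ i, ω (a, i) = true ∧ (b i : ℕ) = (a i : ℕ) + 1 ∧ ∀ j, j ≠ i → b j = a j)

/-- the event of the frozen statement -/
def Av (d N : ℕ) : Set ((Fin d → Fin (2 * N + 1)) × Fin d → Bool) :=
  {ω | ∃ x y : Fin d → Fin (2 * N + 1), (∀ i, (x i : ℕ) = N) ∧ (Gb d N ω).Reachable x y ∧
    ∃ i, (y i : ℕ) = 0 ∨ (y i : ℕ) = 2 * N}

/-- centring -/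
def ce (N : ℕ) (a : Fin d → Fin (2 * N + 1)) : Fin d → ℤ := fun k => ((a k : ℕ) : ℤ) - N

lemma ce_inj (N : ℕ) : Function.Injective (ce (d := d) N) := by
  intro a b h
  funext k
  have h1 := congrFun h k
  unfold ce at h1
  have h2 : (a k : ℕ) = (b k : ℕ) := by omega
  exact Fin.ext h2

/-- centring of edges -/
def je (N : ℕ) (e : (Fin d → Fin (2 * N + 1)) × Fin d) : (Fin d → ℤ) × Fin d := (ce N e.1, e.2)

lemma je_inj (N : ℕ) : Function.Injective (je (d := d) N) := by
  intro a b h
  unfold je at h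
  rw [Prod.mk.injEq] at h
  exact Prod.ext (ce_inj N h.1) h.2

lemma ce_Fa {N : ℕ} {a : Fin d → Fin (2 * N + 1)} :
    ce N a ∈ Fa d N ↔ ∃ i, (a i : ℕ) = 0 ∨ (a i : ℕ) = 2 * N := by
  constructor
  · rintro ⟨i, hi⟩
    refine ⟨i, ?_⟩
    unfold ce at hi
    have h1 := (a i).isLt
    rcases abs_cases (((a i : ℕ) : ℤ) - N) with h | h <;> omega
  · rintro ⟨i, hi⟩
    refine ⟨i, ?_⟩
    unfold ce
    rcases abs_cases (((a i : ℕ) : ℤ) - N) with h | h <;> omega

lemma ce_rel {N : ℕ} {a b : Fin d → Fin (2 * N + 1)} {i : Fin d} :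
    ((b i : ℕ) = (a i : ℕ) + 1 ∧ ∀ j, j ≠ i → b j = a j) ↔ ce N b = ce N a + Pi.single i 1 := by
  constructor
  · rintro ⟨h1, h2⟩
    funext j
    rw [Pi.add_apply]
    by_cases h : j = i
    · subst h
      rw [Pi.single_eq_same]
      unfold ce
      omega
    · rw [Pi.single_eq_of_ne h]
      unfold ce
      rw [h2 j h]; ring
  · intro h
    constructor
    · have h1 := congrFun h i
      rw [Pi.add_apply, Pi.single_eq_same] at h1
      unfold ce at h1
      omega
    · intro j hj
      have h1 := congrFun h j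
      rw [Pi.add_apply, Pi.single_eq_of_ne hj] at h1
      unfold ce at h1
      have : (b j : ℕ) = (a j : ℕ) := by omega
      exact Fin.ext this

lemma Gb_cn {N : ℕ} {T : Finset ((Fin d → Fin (2 * N + 1)) × Fin d)}
    {a b : Fin d → Fin (2 * N + 1)} (h : (Gb d N (cfg T)).Reachable a b) :
    Cn gz (T.image (je N)) (ce N a) (ce N b) := by
  rw [SimpleGraph.reachable_iff_reflTransGen] at h
  induction h with
  | refl => exact Cn.rfl'
  | @tail b c _ h1 ih =>
    refine ih.trans ?_
    unfold Gb at h1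
    rw [SimpleGraph.fromRel_adj] at h1
    obtain ⟨_, h2 | h2⟩ := h1
    · obtain ⟨i, hi, h3⟩ := h2
      have h4 := ce_rel.1 h3
      refine Relation.ReflTransGen.single ⟨je N (b, i), ?_, false, rfl, ?_⟩
      · exact Finset.mem_image_of_mem _ (by simpa [cfg] using hi)
      · exact h4.symm
    · obtain ⟨i, hi, h3⟩ := h2
      have h4 := ce_rel.1 h3
      refine Relation.ReflTransGen.single ⟨je N (c, i), ?_, true, ?_, rfl⟩
      · exact Finset.mem_image_of_mem _ (by simpa [cfg] using hi)
      · exact h4.symm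

lemma cn_Gb {N : ℕ} {T : Finset ((Fin d → Fin (2 * N + 1)) × Fin d)} {v : Fin d → ℤ}
    (h : Cn gz (T.image (je N)) 0 v) :
    cfg T ∈ Av d N ∨ ∃ x b : Fin d → Fin (2 * N + 1), (∀ i, (x i : ℕ) = N) ∧ ce N b = v ∧
      (Gb d N (cfg T)).Reachable x b ∧ v ∉ Fa d N := by
  -- a reached box point decides
  have key : ∀ (w : Fin d → ℤ) (x b : Fin d → Fin (2 * N + 1)), (∀ i, (x i : ℕ) = N) →
      ce N b = w → (Gb d N (cfg T)).Reachable x b →
      cfg T ∈ Av d N ∨ ∃ x b : Fin d → Fin (2 * N + 1), (∀ i, (x i : ℕ) = N) ∧ ce N b = w ∧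
        (Gb d N (cfg T)).Reachable x b ∧ w ∉ Fa d N := by
    intro w x b hx hb hr
    by_cases hw : w ∈ Fa d N
    · left
      refine ⟨x, b, hx, hr, ?_⟩
      rw [← hb] at hw
      exact ce_Fa.1 hw
    · exact Or.inr ⟨x, b, hx, hb, hr, hw⟩
  induction h with
  | refl =>
    refine key 0 (fun _ => ⟨N, by omega⟩) (fun _ => ⟨N, by omega⟩) (fun _ => rfl) ?_
      (SimpleGraph.Reachable.refl _)
    funext k
    simp [ce]
  | @tail v w _ h1 ih =>
    rcases ih with ih | ⟨x, b, hx, hb, hr, hv⟩
    · exact Or.inl ih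
    · obtain ⟨f, hf, s, hs1, hs2⟩ := h1
      rw [Finset.mem_image] at hf
      obtain ⟨⟨a, i⟩, haT, rfl⟩ := hf
      cases s
      · -- v = ce a, w = ce a + e_i
        have h2 : ce N a = v := hs1
        have h3 : ce N a + Pi.single i 1 = w := hs2
        have hab : a = b := ce_inj N (h2.trans hb.symm)
        subst hab
        have h4 : (a i : ℕ) + 1 < 2 * N + 1 := by
          by_contra hcon
          apply hv
          rw [← h2, ce_Fa]
          refine ⟨i, Or.inr ?_⟩
          have := (a i).isLt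
          omega
        set b' : Fin d → Fin (2 * N + 1) := Function.update a i ⟨(a i : ℕ) + 1, h4⟩ with hb'
        have h5 : (b' i : ℕ) = (a i : ℕ) + 1 ∧ ∀ j, j ≠ i → b' j = a j := by
          constructor
          · rw [hb', Function.update_self]
          · intro j hj
            rw [hb', Function.update_of_ne hj]
        have h6 := ce_rel.1 h5
        refine key w x b' hx (h6.trans h3) (hr.trans (SimpleGraph.Adj.reachable ?_))
        unfold Gb
        rw [SimpleGraph.fromRel_adj]
        refine ⟨?_, Or.inl ⟨i, by simpa [cfg] using haT, h5⟩⟩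
        intro hcon
        have := h5.1
        rw [← hcon] at this
        omega
      · have h2 : ce N a + Pi.single i 1 = v := hs1
        have h3 : ce N a = w := hs2
        have h5 : (b i : ℕ) = (a i : ℕ) + 1 ∧ ∀ j, j ≠ i → b j = a j := by
          rw [ce_rel, hb, h2]
        refine key w x a hx h3 (hr.trans (SimpleGraph.Adj.reachable ?_))
        unfold Gb
        rw [SimpleGraph.fromRel_adj]
        refine ⟨?_, Or.inr ⟨i, by simpa [cfg] using haT, h5⟩⟩
        intro hcon
        have := h5.1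
        rw [hcon] at this
        omega

lemma Av_iff {N : ℕ} {T : Finset ((Fin d → Fin (2 * N + 1)) × Fin d)} :
    cfg T ∈ Av d N ↔ Rc gz (T.image (je N)) (Fa d N) 0 := by
  constructor
  · rintro ⟨x, y, hx, hr, hy⟩
    have h := Gb_cn hr
    have h0 : ce N x = 0 := by
      funext k
      unfold ce
      rw [hx k]
      simp
    rw [h0] at h
    exact ⟨ce N y, ce_Fa.2 hy, h⟩
  · rintro ⟨z, hz, h⟩
    rcases cn_Gb h with h | ⟨x, b, hx, hb, hr, hv⟩
    · exact h
    · exact absurd hz hv

lemma Eb_image {N : ℕ} : Eb d N ⊆ (Finset.univ : Finset ((Fin d → Fin (2 * N + 1)) × Fin d)).image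
    (je N) := by
  intro e he
  rw [mem_Eb] at he
  have h := mem_Wb.1 (he false)
  rw [Finset.mem_image]
  refine ⟨(fun k => ⟨(e.1 k + N).toNat, ?_⟩, e.2), Finset.mem_univ _, ?_⟩
  · have h1 := h k
    rw [gz_f] at h1
    rw [abs_le] at h1
    omega
  · unfold je
    refine Prod.ext ?_ rfl
    funext k
    have h1 := h k
    rw [gz_f, abs_le] at h1
    simp only [ce]
    omega

/-- the box probability of the frozen statement -/
theorem box_prob (N : ℕ) {p : ℝ} (h0 : 0 ≤ p) (h1 : p ≤ 1) :
    ((Measure.pi (fun _ : (Fin d → Fin (2 * N + 1)) × Fin d => bn p)) (Av d N)).toReal =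
      th d N p := by
  rw [pi_Ex h0 h1, ← arm_Ex Eb_image p, Ex_image _ _ (je_inj N)]
  exact Ex_congr fun T _ => ind_congr Av_iff

end Pool.Agent.Helper430_GC
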